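import Mathlib

/-!
The minimal surface equation for functions of two real variables, written on the complex plane.
-/

set_option autoImplicit false

open Real

namespace Pool.Agent.Lib.MP_41eeae_an

/-- The partial derivative `u_x` of `u` at `z = x + i y`. -/
noncomputable def slopeX (u : ℂ → ℝ) (z : ℂ) : ℝ := fderiv ℝ u z 1

/-- The partial derivative `u_y` of `u` at `z = x + i y`. -/
noncomputable def slopeY (u : ℂ → ℝ) (z : ℂ) : ℝ := fderiv ℝ u z Complex.I

/-- The area density `W = √(1 + u_x² + u_y²)`. -/
noncomputable def areaDensity (u : ℂ → ℝ) (z : ℂ) : ℝ :=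
  √(1 + slopeX u z ^ 2 + slopeY u z ^ 2)

/-- The minimal surface equation `(u_x / W)_x + (u_y / W)_y = 0` at the point `z`. -/
def MinimalSurfaceEq (u : ℂ → ℝ) (z : ℂ) : Prop :=
  fderiv ℝ (fun w => slopeX u w / areaDensity u w) z 1
    + fderiv ℝ (fun w => slopeY u w / areaDensity u w) z Complex.I = 0

end Pool.Agent.Lib.MP_41eeae_an
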