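import Mathlib
import Pool.Agent.Lib.MP_41eeae_an.Defs

section

/-!
Tools for the growth of minimal graphs: a weighted Wirtinger inequality, the divergence theorem on
discs in differentiated form, and smooth cut-offs.
-/

set_option autoImplicit false

open MeasureTheory Set Filter Topology Real

namespace Pool.Agent.Lib.MP_41eeae_an

/-- Weighted Wirtinger inequality, version with a parameter `δ > 0`. -/
theorem wirtinger_aux {a b : ℝ} (hab : a < b) {ρ V V' : ℝ → ℝ} (hρ : Continuous ρ)
    (hρ0 : ∀ x, 0 < ρ x) (hV : ∀ x, HasDerivAt V (V' x) x) (hV' : Continuous V')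
    (hVa : V a = 0) (hVb : V b = 0) {δ : ℝ} (hδ : 0 < δ) :
    (π / ((∫ x in a..b, ρ x) + 2 * δ)) ^ 2 * ∫ x in a..b, V x ^ 2 * ρ x
      ≤ ∫ x in a..b, V' x ^ 2 / ρ x := by
  set l : ℝ := ∫ x in a..b, ρ x with hl
  have hl0 : 0 < l := intervalIntegral.intervalIntegral_pos_of_pos (hρ.intervalIntegrable _ _) hρ0 hab
  set c : ℝ := π / (l + 2 * δ) with hc
  have hc0 : 0 < c := div_pos pi_pos (by linarith)
  have hcV : Continuous V := continuous_iff_continuousAt.2 fun x => (hV x).continuousAt
  let S : ℝ → ℝ := fun x => δ + ∫ y in a..x, ρ y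
  have hS : ∀ x, HasDerivAt S (ρ x) x := fun x => by
    have := intervalIntegral.integral_hasDerivAt_right (hρ.intervalIntegrable a x)
      (hρ.stronglyMeasurableAtFilter _ _) hρ.continuousAt
    exact this.const_add δ
  have hSc : Continuous S := continuous_iff_continuousAt.2 fun x => (hS x).continuousAt
  have hSmono : ∀ x ∈ Icc a b, δ ≤ S x ∧ S x ≤ l + δ := by
    intro x hx
    constructor
    · have : 0 ≤ ∫ y in a..x, ρ y :=
        intervalIntegral.integral_nonneg hx.1 fun y _ => (hρ0 y).le
      simp only [S]; linarith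
    · have h1 : (∫ y in a..x, ρ y) + ∫ y in x..b, ρ y = l :=
        intervalIntegral.integral_add_adjacent_intervals (hρ.intervalIntegrable _ _)
          (hρ.intervalIntegrable _ _)
      have : 0 ≤ ∫ y in x..b, ρ y :=
        intervalIntegral.integral_nonneg hx.2 fun y _ => (hρ0 y).le
      simp only [S]; linarith
  have hsin : ∀ x ∈ Icc a b, 0 < sin (c * S x) := by
    intro x hx
    obtain ⟨h1, h2⟩ := hSmono x hx
    apply sin_pos_of_pos_of_lt_pi (mul_pos hc0 (by linarith))
    calc c * S x ≤ c * (l + δ) := by gcongr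
      _ < c * (l + 2 * δ) := by apply mul_lt_mul_of_pos_left _ hc0; linarith
      _ = π := by rw [hc]; field_simp
  let ψ : ℝ → ℝ := fun x => c * (cos (c * S x) / sin (c * S x)) * V x ^ 2
  let ψ' : ℝ → ℝ := fun x => - c ^ 2 * ρ x * V x ^ 2 / sin (c * S x) ^ 2
    + 2 * c * (cos (c * S x) / sin (c * S x)) * V x * V' x
  have hψ : ∀ x ∈ Icc a b, HasDerivAt ψ (ψ' x) x := by
    intro x hx
    have hs := (hsin x hx).ne'
    have h1 : HasDerivAt (fun x => c * S x) (c * ρ x) x := (hS x).const_mul c
    have h2 := ((h1.cos.div h1.sin hs).const_mul c).mul ((hV x).pow 2)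
    refine h2.congr_deriv ?_
    simp only [ψ', Pi.div_apply, Pi.pow_apply]
    have hsc := sin_sq_add_cos_sq (c * S x)
    field_simp
    linear_combination (-(V x ^ 2) * ρ x * c) * hsc
  have hψ'c : ContinuousOn ψ' (Icc a b) := by
    have hsc : Continuous (fun x => sin (c * S x)) := by fun_prop
    have hcc : Continuous (fun x => cos (c * S x)) := by fun_prop
    apply ContinuousOn.add
    · apply ContinuousOn.div (by fun_prop) (by fun_prop)
      intro x hx
      have := hsin x hx
      positivity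
    · apply ContinuousOn.mul _ hV'.continuousOn
      apply ContinuousOn.mul _ hcV.continuousOn
      apply ContinuousOn.mul (by fun_prop)
      exact ContinuousOn.div hcc.continuousOn hsc.continuousOn fun x hx => (hsin x hx).ne'
  have hint : ∫ x in a..b, ψ' x = 0 := by
    have := intervalIntegral.integral_eq_sub_of_hasDerivAt (a := a) (b := b) (f := ψ) (f' := ψ')
      (by rw [uIcc_of_le hab.le]; exact hψ)
      (ContinuousOn.intervalIntegrable (by rw [uIcc_of_le hab.le]; exact hψ'c))
    rw [this]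
    simp [ψ, hVa, hVb]
  have hi1 : IntervalIntegrable (fun x => V x ^ 2 * ρ x) volume a b :=
    Continuous.intervalIntegrable (by fun_prop) _ _
  have hi2 : IntervalIntegrable (fun x => V' x ^ 2 / ρ x) volume a b := by
    apply Continuous.intervalIntegrable
    exact (hV'.pow 2).div hρ fun x => (hρ0 x).ne'
  have hi3 : IntervalIntegrable ψ' volume a b :=
    ContinuousOn.intervalIntegrable (by rw [uIcc_of_le hab.le]; exact hψ'c)
  have key : ∀ x ∈ Icc a b, c ^ 2 * (V x ^ 2 * ρ x) + ψ' x ≤ V' x ^ 2 / ρ x := by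
    intro x hx
    have hs := hsin x hx
    have hr := hρ0 x
    have hsc := sin_sq_add_cos_sq (c * S x)
    have : V' x ^ 2 / ρ x - (c ^ 2 * (V x ^ 2 * ρ x) + ψ' x)
        = (V' x - c * ρ x * (cos (c * S x) / sin (c * S x)) * V x) ^ 2 / ρ x := by
      simp only [ψ']
      field_simp
      linear_combination (-(c ^ 2 * V x ^ 2 * ρ x ^ 2)) * hsc
    have h2 : 0 ≤ (V' x - c * ρ x * (cos (c * S x) / sin (c * S x)) * V x) ^ 2 / ρ x := by
      positivity
    linarith
  calc c ^ 2 * ∫ x in a..b, V x ^ 2 * ρ x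
      = ∫ x in a..b, (c ^ 2 * (V x ^ 2 * ρ x) + ψ' x) := by
        rw [intervalIntegral.integral_add (hi1.const_mul _) hi3, hint,
          intervalIntegral.integral_const_mul, add_zero]
    _ ≤ ∫ x in a..b, V' x ^ 2 / ρ x :=
        intervalIntegral.integral_mono_on hab.le ((hi1.const_mul _).add hi3) hi2 key

/-- Weighted Wirtinger inequality. -/
theorem wirtinger {a b : ℝ} (hab : a < b) {ρ V V' : ℝ → ℝ} (hρ : Continuous ρ)
    (hρ0 : ∀ x, 0 < ρ x) (hV : ∀ x, HasDerivAt V (V' x) x) (hV' : Continuous V')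
    (hVa : V a = 0) (hVb : V b = 0) :
    (π / (∫ x in a..b, ρ x)) ^ 2 * ∫ x in a..b, V x ^ 2 * ρ x
      ≤ ∫ x in a..b, V' x ^ 2 / ρ x := by
  have hl0 : 0 < ∫ x in a..b, ρ x :=
    intervalIntegral.intervalIntegral_pos_of_pos (hρ.intervalIntegrable _ _) hρ0 hab
  have hlim : Tendsto (fun δ : ℝ => (π / ((∫ x in a..b, ρ x) + 2 * δ)) ^ 2 *
      ∫ x in a..b, V x ^ 2 * ρ x) (𝓝[>] 0)
      (𝓝 ((π / ((∫ x in a..b, ρ x) + 2 * 0)) ^ 2 * ∫ x in a..b, V x ^ 2 * ρ x)) := by
    apply tendsto_nhdsWithin_of_tendsto_nhds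
    have : ContinuousAt (fun δ : ℝ => (π / ((∫ x in a..b, ρ x) + 2 * δ)) ^ 2 *
      ∫ x in a..b, V x ^ 2 * ρ x) 0 := by
      apply ContinuousAt.mul _ continuousAt_const
      apply ContinuousAt.pow
      apply ContinuousAt.div continuousAt_const (by fun_prop)
      simpa using hl0.ne'
    exact this
  rw [mul_zero, add_zero] at hlim
  refine le_of_tendsto hlim ?_
  filter_upwards [self_mem_nhdsWithin] with δ hδ
  exact wirtinger_aux hab hρ hρ0 hV hV' hVa hVb hδ

theorem hasDerivAt_param {f f' : ℝ → ℝ → ℝ} {a b : ℝ}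
    (hf : ∀ t θ, HasDerivAt (fun t => f t θ) (f' t θ) t)
    (hc : Continuous (Function.uncurry f)) (hc' : Continuous (Function.uncurry f')) (t : ℝ) :
    HasDerivAt (fun t => ∫ θ in a..b, f t θ) (∫ θ in a..b, f' t θ) t := by
  have hcompact : IsCompact (Icc (t - 1) (t + 1) ×ˢ uIcc a b) := isCompact_Icc.prod isCompact_uIcc
  obtain ⟨C, hC⟩ := hcompact.exists_bound_of_continuousOn hc'.continuousOn
  have hnhds : Icc (t - 1) (t + 1) ∈ 𝓝 t := Icc_mem_nhds (by linarith) (by linarith)
  have hcs : ∀ s, Continuous (f s) := fun s => hc.comp (Continuous.prodMk_right s)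
  have hcs' : ∀ s, Continuous (f' s) := fun s => hc'.comp (Continuous.prodMk_right s)
  refine (intervalIntegral.hasDerivAt_integral_of_dominated_loc_of_deriv_le (μ := volume)
    (F := f) (F' := f') (bound := fun _ => C) hnhds ?_ ?_ ?_ ?_ ?_ ?_).2
  · exact Eventually.of_forall fun s => (hcs s).aestronglyMeasurable
  · exact (hcs t).intervalIntegrable _ _
  · exact (hcs' t).aestronglyMeasurable
  · refine Eventually.of_forall fun θ hθ s hs => ?_
    exact hC (s, θ) ⟨hs, uIoc_subset_uIcc hθ⟩
  · exact _root_.intervalIntegrable_const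
  · exact Eventually.of_forall fun θ _ s _ => hf s θ

theorem continuous_circleMap_uncurry :
    Continuous (fun p : ℝ × ℝ => circleMap 0 p.1 p.2) := by
  unfold circleMap
  fun_prop

theorem hasDerivAt_circleMap_radius (t θ : ℝ) :
    HasDerivAt (fun t : ℝ => circleMap 0 t θ) (Complex.exp (θ * Complex.I)) t := by
  have : HasDerivAt (fun t : ℝ => (t : ℂ)) 1 t := by
    simpa using (hasDerivAt_id t).ofReal_comp
  simpa [circleMap] using this.mul_const (Complex.exp (θ * Complex.I))

theorem apply_exp (L : ℂ →L[ℝ] ℝ) (θ : ℝ) :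
    L (Complex.exp (θ * Complex.I)) = cos θ * L 1 + sin θ * L Complex.I := by
  have : Complex.exp (θ * Complex.I) = (cos θ) • (1 : ℂ) + (sin θ) • Complex.I := by
    rw [Complex.exp_mul_I]
    simp
  rw [this, map_add, map_smul, map_smul]
  simp

theorem apply_circleMap_mul_I (L : ℂ →L[ℝ] ℝ) (t θ : ℝ) :
    L (circleMap 0 t θ * Complex.I) = t * (-sin θ * L 1 + cos θ * L Complex.I) := by
  have : circleMap 0 t θ * Complex.I = (t * -sin θ) • (1 : ℂ) + (t * cos θ) • Complex.I := by
    rw [circleMap, Complex.exp_mul_I]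
    simp only [zero_add, Complex.real_smul, mul_one, Complex.ofReal_mul, Complex.ofReal_neg,
      Complex.ofReal_sin, Complex.ofReal_cos]
    linear_combination (t * Complex.sin θ) * Complex.I_sq
  rw [this, map_add, map_smul, map_smul]
  simp
  ring

theorem hasDerivAt_radius {P : ℂ → ℝ} (hP : ContDiff ℝ 1 P) (t θ : ℝ) :
    HasDerivAt (fun t : ℝ => P (circleMap 0 t θ))
      (cos θ * fderiv ℝ P (circleMap 0 t θ) 1
        + sin θ * fderiv ℝ P (circleMap 0 t θ) Complex.I) t := by
  have h1 := (hP.differentiable one_ne_zero (circleMap 0 t θ)).hasFDerivAt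
  have h2 := h1.comp_hasDerivAt t (hasDerivAt_circleMap_radius t θ)
  rw [apply_exp] at h2
  exact h2

theorem hasDerivAt_angle {P : ℂ → ℝ} (hP : ContDiff ℝ 1 P) (t θ : ℝ) :
    HasDerivAt (fun θ : ℝ => P (circleMap 0 t θ))
      (t * (-sin θ * fderiv ℝ P (circleMap 0 t θ) 1
        + cos θ * fderiv ℝ P (circleMap 0 t θ) Complex.I)) θ := by
  have h1 := (hP.differentiable one_ne_zero (circleMap 0 t θ)).hasFDerivAt
  have h2 := h1.comp_hasDerivAt θ (hasDerivAt_circleMap 0 t θ)
  rw [apply_circleMap_mul_I] at h2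
  exact h2

theorem continuous_partial {P : ℂ → ℝ} (hP : ContDiff ℝ 1 P) (v : ℂ) :
    Continuous (fun p : ℝ × ℝ => fderiv ℝ P (circleMap 0 p.1 p.2) v) := by
  have h := hP.continuous_fderiv one_ne_zero
  exact (h.comp continuous_circleMap_uncurry).clm_apply continuous_const

/-- The divergence theorem on discs, differentiated in the radius. -/
theorem flux {P Q : ℂ → ℝ} (hP : ContDiff ℝ 1 P) (hQ : ContDiff ℝ 1 Q) (t : ℝ) :
    HasDerivAt (fun t => ∫ θ in (0 : ℝ)..(2 * π),
        t * (P (circleMap 0 t θ) * cos θ + Q (circleMap 0 t θ) * sin θ))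
      (∫ θ in (0 : ℝ)..(2 * π), t * (fderiv ℝ P (circleMap 0 t θ) 1
        + fderiv ℝ Q (circleMap 0 t θ) Complex.I)) t := by
  have hPc : Continuous (fun p : ℝ × ℝ => P (circleMap 0 p.1 p.2)) :=
    hP.continuous.comp continuous_circleMap_uncurry
  have hQc : Continuous (fun p : ℝ × ℝ => Q (circleMap 0 p.1 p.2)) :=
    hQ.continuous.comp continuous_circleMap_uncurry
  have hPx := continuous_partial hP 1
  have hPy := continuous_partial hP Complex.I
  have hQx := continuous_partial hQ 1
  have hQy := continuous_partial hQ Complex.I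
  have hcos : Continuous (fun p : ℝ × ℝ => cos p.2) := by fun_prop
  have hsin : Continuous (fun p : ℝ × ℝ => sin p.2) := by fun_prop
  have main := hasDerivAt_param (a := 0) (b := 2 * π)
    (f := fun t θ => t * (P (circleMap 0 t θ) * cos θ + Q (circleMap 0 t θ) * sin θ))
    (f' := fun t θ => (P (circleMap 0 t θ) * cos θ + Q (circleMap 0 t θ) * sin θ)
      + t * ((cos θ * fderiv ℝ P (circleMap 0 t θ) 1
        + sin θ * fderiv ℝ P (circleMap 0 t θ) Complex.I) * cos θ
        + (cos θ * fderiv ℝ Q (circleMap 0 t θ) 1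
        + sin θ * fderiv ℝ Q (circleMap 0 t θ) Complex.I) * sin θ)) ?_ ?_ ?_ t
  · refine main.congr_deriv ?_
    have hper : ∫ θ in (0 : ℝ)..(2 * π),
        ((t * (-sin θ * fderiv ℝ Q (circleMap 0 t θ) 1
          + cos θ * fderiv ℝ Q (circleMap 0 t θ) Complex.I)) * cos θ
          + Q (circleMap 0 t θ) * (-sin θ)
          - ((t * (-sin θ * fderiv ℝ P (circleMap 0 t θ) 1
          + cos θ * fderiv ℝ P (circleMap 0 t θ) Complex.I)) * sin θ
          + P (circleMap 0 t θ) * cos θ)) = 0 := by
      have := intervalIntegral.integral_eq_sub_of_hasDerivAt (a := 0) (b := 2 * π)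
        (f := fun θ => Q (circleMap 0 t θ) * cos θ - P (circleMap 0 t θ) * sin θ)
        (f' := fun θ => (t * (-sin θ * fderiv ℝ Q (circleMap 0 t θ) 1
          + cos θ * fderiv ℝ Q (circleMap 0 t θ) Complex.I)) * cos θ
          + Q (circleMap 0 t θ) * (-sin θ)
          - ((t * (-sin θ * fderiv ℝ P (circleMap 0 t θ) 1
          + cos θ * fderiv ℝ P (circleMap 0 t θ) Complex.I)) * sin θ
          + P (circleMap 0 t θ) * cos θ)) ?_ ?_
      · rw [this]
        simp [circleMap]
      · intro θ _
        exact ((hasDerivAt_angle hQ t θ).mul (hasDerivAt_cos θ)).sub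
          ((hasDerivAt_angle hP t θ).mul (hasDerivAt_sin θ))
      · apply Continuous.intervalIntegrable
        have e : ∀ {g : ℝ × ℝ → ℝ}, Continuous g → Continuous (fun θ => g (t, θ)) :=
          fun hg => hg.comp (Continuous.prodMk_right t)
        have h1 := e hPc
        have h2 := e hQc
        have h3 := e hPx
        have h4 := e hPy
        have h5 := e hQx
        have h6 := e hQy
        fun_prop
    rw [← sub_eq_zero]
    refine Eq.trans ?_ (neg_eq_zero.2 hper)
    rw [← intervalIntegral.integral_neg, ← intervalIntegral.integral_sub]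
    · apply intervalIntegral.integral_congr
      intro θ _
      have := sin_sq_add_cos_sq θ
      simp only
      linear_combination (t * (fderiv ℝ P (circleMap 0 t θ) 1
        + fderiv ℝ Q (circleMap 0 t θ) Complex.I)) * this
    all_goals
      apply Continuous.intervalIntegrable
      have e : ∀ {g : ℝ × ℝ → ℝ}, Continuous g → Continuous (fun θ => g (t, θ)) :=
        fun hg => hg.comp (Continuous.prodMk_right t)
      have h1 := e hPc
      have h2 := e hQc
      have h3 := e hPx
      have h4 := e hPy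
      have h5 := e hQx
      have h6 := e hQy
      fun_prop
  · intro t θ
    have h := ((hasDerivAt_radius hP t θ).mul_const (cos θ)).add
      ((hasDerivAt_radius hQ t θ).mul_const (sin θ))
    have h2 := (hasDerivAt_id t).mul h
    refine h2.congr_deriv ?_
    simp
  · simp only [Function.uncurry_def]
    fun_prop
  · simp only [Function.uncurry_def]
    fun_prop

noncomputable def chi (ε s : ℝ) : ℝ := smoothTransition (s / ε - 1)
noncomputable def Phi (ε s : ℝ) : ℝ := ∫ x in (0 : ℝ)..s, chi ε x ^ 2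
noncomputable def vee (ε s : ℝ) : ℝ := ∫ x in (0 : ℝ)..s, chi ε x

theorem chi_contDiff (ε : ℝ) : ContDiff ℝ 1 (chi ε) := by
  unfold chi
  exact (smoothTransition.contDiff (n := 1)).comp (by fun_prop)

theorem chi_continuous (ε : ℝ) : Continuous (chi ε) := (chi_contDiff ε).continuous

theorem chi_nonneg (ε s : ℝ) : 0 ≤ chi ε s := smoothTransition.nonneg _
theorem chi_le_one (ε s : ℝ) : chi ε s ≤ 1 := smoothTransition.le_one _

theorem chi_eq_zero {ε s : ℝ} (hε : 0 < ε) (h : s ≤ ε) : chi ε s = 0 := by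
  apply smoothTransition.zero_of_nonpos
  have : s / ε ≤ 1 := (div_le_one hε).2 h
  linarith

theorem chi_pos {ε s : ℝ} (hε : 0 < ε) (h : ε < s) : 0 < chi ε s := by
  apply smoothTransition.pos_of_pos
  have : 1 < s / ε := (one_lt_div hε).2 h
  linarith

theorem chi_eq_one {ε s : ℝ} (hε : 0 < ε) (h : 2 * ε ≤ s) : chi ε s = 1 := by
  apply smoothTransition.one_of_one_le
  have : 2 ≤ s / ε := (le_div_iff₀ hε).2 h
  linarith

theorem chi_mono {ε : ℝ} (hε : 0 < ε) : Monotone (chi ε) := by
  intro a b hab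
  apply smoothTransition.monotone
  have : a / ε ≤ b / ε := by gcongr
  linarith

theorem chi_half {ε s : ℝ} (hε : 0 < ε) (h : chi ε s ≠ 0) : chi (ε / 2) s = 1 := by
  apply chi_eq_one (by linarith)
  by_contra hc
  push Not at hc
  exact h (chi_eq_zero hε (by linarith))

theorem hasDerivAt_Phi (ε s : ℝ) : HasDerivAt (Phi ε) (chi ε s ^ 2) s := by
  have hc : Continuous (fun x => chi ε x ^ 2) := (chi_continuous ε).pow 2
  exact intervalIntegral.integral_hasDerivAt_right (hc.intervalIntegrable _ _)
    (hc.stronglyMeasurableAtFilter _ _) hc.continuousAt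

theorem hasDerivAt_vee (ε s : ℝ) : HasDerivAt (vee ε) (chi ε s) s := by
  have hc : Continuous (fun x => chi ε x) := (chi_continuous ε)
  exact intervalIntegral.integral_hasDerivAt_right (hc.intervalIntegrable _ _)
    (hc.stronglyMeasurableAtFilter _ _) hc.continuousAt

theorem contDiff_Phi (ε : ℝ) : ContDiff ℝ 1 (Phi ε) := by
  rw [contDiff_one_iff_deriv]
  refine ⟨fun s => (hasDerivAt_Phi ε s).differentiableAt, ?_⟩
  have : deriv (Phi ε) = fun s => chi ε s ^ 2 := by
    ext s; exact (hasDerivAt_Phi ε s).deriv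
  rw [this]
  exact (chi_continuous ε).pow 2

theorem contDiff_vee (ε : ℝ) : ContDiff ℝ 1 (vee ε) := by
  rw [contDiff_one_iff_deriv]
  refine ⟨fun s => (hasDerivAt_vee ε s).differentiableAt, ?_⟩
  have : deriv (vee ε) = fun s => chi ε s := by
    ext s; exact (hasDerivAt_vee ε s).deriv
  rw [this]
  exact (chi_continuous ε)

theorem Phi_eq_zero {ε s : ℝ} (hε : 0 < ε) (h : s ≤ ε) : Phi ε s = 0 := by
  unfold Phi
  rw [intervalIntegral.integral_congr (g := fun _ => (0 : ℝ))]
  · simp
  · intro x hx
    have : x ≤ ε := by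
      rcases le_total 0 s with h0 | h0
      · rw [uIcc_of_le h0] at hx; exact hx.2.trans h
      · rw [uIcc_of_ge h0] at hx; exact hx.2.trans hε.le
    simp [chi_eq_zero hε this]

theorem vee_eq_zero {ε s : ℝ} (hε : 0 < ε) (h : s ≤ ε) : vee ε s = 0 := by
  unfold vee
  rw [intervalIntegral.integral_congr (g := fun _ => (0 : ℝ))]
  · simp
  · intro x hx
    have : x ≤ ε := by
      rcases le_total 0 s with h0 | h0
      · rw [uIcc_of_le h0] at hx; exact hx.2.trans h
      · rw [uIcc_of_ge h0] at hx; exact hx.2.trans hε.le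
    simp [chi_eq_zero hε this]

theorem Phi_nonneg {ε s : ℝ} (hs : 0 ≤ s) : 0 ≤ Phi ε s :=
  intervalIntegral.integral_nonneg hs fun x _ => by positivity

theorem vee_nonneg {ε s : ℝ} (hs : 0 ≤ s) : 0 ≤ vee ε s :=
  intervalIntegral.integral_nonneg hs fun x _ => chi_nonneg _ _

theorem vee_le {ε s : ℝ} (hs : 0 ≤ s) : vee ε s ≤ s := by
  have := intervalIntegral.integral_mono_on hs ((chi_continuous ε).intervalIntegrable (μ := volume) 0 s)
    (_root_.intervalIntegrable_const (c := (1 : ℝ))) (fun x _ => chi_le_one ε x)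
  simpa [vee] using this

theorem chi_sq_le_one (ε x : ℝ) : chi ε x ^ 2 ≤ 1 := by
  have h1 := chi_nonneg ε x
  have h2 := chi_le_one ε x
  nlinarith

theorem Phi_le {ε s : ℝ} (hs : 0 ≤ s) : Phi ε s ≤ s := by
  have := intervalIntegral.integral_mono_on hs
    (((chi_continuous ε).pow 2).intervalIntegrable (μ := volume) 0 s)
    (_root_.intervalIntegrable_const (c := (1 : ℝ))) (fun x _ => chi_sq_le_one ε x)
  simpa [Phi] using this

theorem Phi_le_chi_mul_vee {ε s : ℝ} (hε : 0 < ε) (hs : 0 ≤ s) : Phi ε s ≤ chi ε s * vee ε s := by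
  unfold Phi vee
  rw [← intervalIntegral.integral_const_mul]
  apply intervalIntegral.integral_mono_on hs
    (((chi_continuous ε).pow 2).intervalIntegrable (μ := volume) 0 s)
    ((continuous_const.mul (chi_continuous ε)).intervalIntegrable _ _)
  intro x hx
  have h1 := chi_nonneg ε x
  have h2 := chi_mono hε hx.2
  change chi ε x ^ 2 ≤ chi ε s * chi ε x
  nlinarith

theorem Phi_half_sub {ε s : ℝ} (hε : 0 < ε) (hs : 0 ≤ s) : Phi (ε / 2) s - Phi ε s ≤ 2 * ε := by
  have hi : ∀ a b, IntervalIntegrable (fun x => chi (ε / 2) x ^ 2 - chi ε x ^ 2) volume a b :=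
    fun a b => (((chi_continuous _).pow 2).sub ((chi_continuous _).pow 2)).intervalIntegrable _ _
  have e : Phi (ε / 2) s - Phi ε s = ∫ x in (0 : ℝ)..s, (chi (ε / 2) x ^ 2 - chi ε x ^ 2) := by
    unfold Phi
    rw [intervalIntegral.integral_sub]
    · exact ((chi_continuous _).pow 2).intervalIntegrable _ _
    · exact ((chi_continuous _).pow 2).intervalIntegrable _ _
  rw [e]
  rcases le_total s (2 * ε) with h | h
  · calc ∫ x in (0 : ℝ)..s, (chi (ε / 2) x ^ 2 - chi ε x ^ 2)
        ≤ ∫ x in (0 : ℝ)..s, (1 : ℝ) := by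
          apply intervalIntegral.integral_mono_on hs (hi _ _)
            (continuous_const.intervalIntegrable _ _)
          intro x _
          have h1 := chi_sq_le_one (ε / 2) x
          have h2 : 0 ≤ chi ε x ^ 2 := by positivity
          linarith
      _ = s := by simp
      _ ≤ 2 * ε := h
  · rw [← intervalIntegral.integral_add_adjacent_intervals (hi 0 (2 * ε)) (hi (2 * ε) s)]
    have h1 : ∫ x in (0 : ℝ)..(2 * ε), (chi (ε / 2) x ^ 2 - chi ε x ^ 2) ≤ 2 * ε := by
      calc ∫ x in (0 : ℝ)..(2 * ε), (chi (ε / 2) x ^ 2 - chi ε x ^ 2)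
          ≤ ∫ x in (0 : ℝ)..(2 * ε), (1 : ℝ) := by
            apply intervalIntegral.integral_mono_on (by positivity) (hi _ _)
              (continuous_const.intervalIntegrable _ _)
            intro x _
            have h1 := chi_sq_le_one (ε / 2) x
            have h2 : 0 ≤ chi ε x ^ 2 := by positivity
            linarith
        _ = 2 * ε := by simp
    have h2 : ∫ x in (2 * ε)..s, (chi (ε / 2) x ^ 2 - chi ε x ^ 2) = 0 := by
      rw [intervalIntegral.integral_congr (g := fun _ => (0 : ℝ))]
      · simp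
      · intro x hx
        rw [uIcc_of_le h] at hx
        simp [chi_eq_one hε hx.1, chi_eq_one (half_pos hε) (by linarith [hx.1] : 2 * (ε / 2) ≤ x)]
    linarith

theorem vee_pos {ε s : ℝ} (hε : 0 < ε) (h : ε < s) : 0 < vee ε s := by
  have hi : ∀ a b, IntervalIntegrable (fun x => chi ε x) volume a b :=
    fun a b => (chi_continuous _).intervalIntegrable _ _
  have h1 : vee ε s = vee ε ε + ∫ x in ε..s, chi ε x :=
    (intervalIntegral.integral_add_adjacent_intervals (hi 0 ε) (hi ε s)).symm
  rw [h1, vee_eq_zero hε le_rfl, zero_add]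
  apply intervalIntegral.intervalIntegral_pos_of_pos_on (hi _ _) _ h
  intro x hx
  exact chi_pos hε hx.1

theorem chi_sq_mono_eps {ε : ℝ} (hε : 0 < ε) (s : ℝ) : chi ε s ^ 2 ≤ chi (ε / 2) s ^ 2 := by
  by_cases h : chi ε s = 0
  · rw [h, zero_pow two_ne_zero]; exact sq_nonneg _
  · rw [chi_half hε h]
    simpa using chi_sq_le_one ε s

end Pool.Agent.Lib.MP_41eeae_an
end

section

section

/-!
Energy identities for positive solutions of the minimal surface equation with zero boundary values.
-/

set_option autoImplicit false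

open MeasureTheory Set Filter Topology Real

namespace Pool.Agent.Lib.MP_41eeae_an

/-- A positive solution on the open set `D` that extends continuously by `0`. -/
structure Sol (D : Set ℂ) (u : ℂ → ℝ) : Prop where
  isOpen : IsOpen D
  smooth : ContDiffOn ℝ 2 u D
  cont : Continuous (D.indicator u)
  pos : ∀ z ∈ D, 0 < u z
  mse : ∀ z ∈ D, MinimalSurfaceEq u z

variable {D : Set ℂ} {u : ℂ → ℝ}

theorem areaDensity_pos (u : ℂ → ℝ) (z : ℂ) : 0 < areaDensity u z := by
  unfold areaDensity; positivity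

theorem areaDensity_sq (u : ℂ → ℝ) (z : ℂ) :
    areaDensity u z ^ 2 = 1 + slopeX u z ^ 2 + slopeY u z ^ 2 := by
  unfold areaDensity
  rw [sq_sqrt (by positivity)]

theorem one_le_areaDensity (u : ℂ → ℝ) (z : ℂ) : 1 ≤ areaDensity u z := by
  unfold areaDensity
  rw [one_le_sqrt]
  nlinarith [sq_nonneg (slopeX u z), sq_nonneg (slopeY u z)]

theorem Sol.fderiv_smooth (h : Sol D u) : ContDiffOn ℝ 1 (fderiv ℝ u) D :=
  h.smooth.fderiv_of_isOpen h.isOpen (by norm_num)

theorem Sol.slopeX_smooth (h : Sol D u) : ContDiffOn ℝ 1 (slopeX u) D :=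
  h.fderiv_smooth.clm_apply contDiffOn_const

theorem Sol.slopeY_smooth (h : Sol D u) : ContDiffOn ℝ 1 (slopeY u) D :=
  h.fderiv_smooth.clm_apply contDiffOn_const

theorem Sol.area_smooth (h : Sol D u) : ContDiffOn ℝ 1 (areaDensity u) D := by
  unfold areaDensity
  apply ContDiffOn.sqrt
  · exact (contDiffOn_const.add (h.slopeX_smooth.pow 2)).add (h.slopeY_smooth.pow 2)
  · intro z _
    positivity

theorem Sol.nonneg (h : Sol D u) (z : ℂ) : 0 ≤ D.indicator u z := by
  by_cases hz : z ∈ D
  · rw [indicator_of_mem hz]; exact (h.pos z hz).le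
  · rw [indicator_of_notMem hz]

/-- Near a point outside `D`, a function which is cut off in terms of `u` vanishes. -/
theorem Sol.glue_zero (h : Sol D u) {ε : ℝ} (hε : 0 < ε) {φ : ℝ → ℝ}
    (hφ0 : ∀ s ≤ ε, φ s = 0) (k : ℂ → ℝ) {z : ℂ} (hz : z ∉ D) :
    D.indicator (fun w => φ (u w) * k w) =ᶠ[𝓝 z] fun _ => 0 := by
  have hzero : D.indicator u z = 0 := indicator_of_notMem hz _
  have : ∀ᶠ w in 𝓝 z, D.indicator u w < ε := by
    apply h.cont.continuousAt.eventually_lt continuousAt_const
    rw [hzero]; exact hε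
  filter_upwards [this] with w hw
  by_cases hwD : w ∈ D
  · rw [indicator_of_mem hwD] at hw ⊢
    rw [hφ0 _ hw.le, zero_mul]
  · rw [indicator_of_notMem hwD]

theorem Sol.glue_in (h : Sol D u) (g : ℂ → ℝ) {z : ℂ} (hz : z ∈ D) :
    D.indicator g =ᶠ[𝓝 z] g := by
  filter_upwards [h.isOpen.mem_nhds hz] with w hw
  exact indicator_of_mem hw _

theorem Sol.glue_contDiff (h : Sol D u) {ε : ℝ} (hε : 0 < ε) {φ : ℝ → ℝ}
    (hφ : ContDiff ℝ 1 φ) (hφ0 : ∀ s ≤ ε, φ s = 0) {k : ℂ → ℝ} (hk : ContDiffOn ℝ 1 k D) :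
    ContDiff ℝ 1 (D.indicator fun w => φ (u w) * k w) := by
  rw [contDiff_iff_contDiffAt]
  intro z
  by_cases hz : z ∈ D
  · apply ContDiffAt.congr_of_eventuallyEq _ (h.glue_in _ hz)
    have h1 : ContDiffAt ℝ 1 u z :=
      (h.smooth.contDiffAt (h.isOpen.mem_nhds hz)).of_le (by norm_num)
    have h2 : ContDiffAt ℝ 1 k z := hk.contDiffAt (h.isOpen.mem_nhds hz)
    exact (hφ.contDiffAt.comp z h1).mul h2
  · exact contDiffAt_const.congr_of_eventuallyEq (h.glue_zero hε hφ0 k hz)

theorem Sol.glue_continuous (h : Sol D u) {ε : ℝ} (hε : 0 < ε) {φ : ℝ → ℝ}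
    (hφ : Continuous φ) (hφ0 : ∀ s ≤ ε, φ s = 0) {k : ℂ → ℝ} (hk : ContinuousOn k D) :
    Continuous (D.indicator fun w => φ (u w) * k w) := by
  rw [continuous_iff_continuousAt]
  intro z
  by_cases hz : z ∈ D
  · apply ContinuousAt.congr _ (h.glue_in _ hz).symm
    have h1 : ContinuousAt u z := h.smooth.continuousOn.continuousAt (h.isOpen.mem_nhds hz)
    have h2 : ContinuousAt k z := hk.continuousAt (h.isOpen.mem_nhds hz)
    exact (hφ.continuousAt.comp h1).mul h2
  · exact continuousAt_const.congr (h.glue_zero hε hφ0 k hz).symm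

/-- Radial-flux components and energy density. -/
noncomputable def PP (D : Set ℂ) (u : ℂ → ℝ) (ε : ℝ) : ℂ → ℝ :=
  D.indicator fun w => Phi ε (u w) * (slopeX u w / areaDensity u w)
noncomputable def QQ (D : Set ℂ) (u : ℂ → ℝ) (ε : ℝ) : ℂ → ℝ :=
  D.indicator fun w => Phi ε (u w) * (slopeY u w / areaDensity u w)
noncomputable def VV (D : Set ℂ) (u : ℂ → ℝ) (ε : ℝ) : ℂ → ℝ :=
  D.indicator fun w => vee ε (u w) * 1
noncomputable def EE (D : Set ℂ) (u : ℂ → ℝ) (ε : ℝ) : ℂ → ℝ :=
  D.indicator fun w => chi ε (u w) ^ 2 * ((slopeX u w ^ 2 + slopeY u w ^ 2) / areaDensity u w)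
noncomputable def WW (D : Set ℂ) (u : ℂ → ℝ) (ε : ℝ) : ℂ → ℝ :=
  fun z => 1 + D.indicator (fun w => chi (ε / 2) (u w) ^ 2 * (areaDensity u w - 1)) z

theorem chi_sq_zero {ε : ℝ} (hε : 0 < ε) : ∀ s ≤ ε, (fun s => chi ε s ^ 2) s = 0 := by
  intro s hs
  simp [chi_eq_zero hε hs]

theorem Sol.PP_contDiff (h : Sol D u) {ε : ℝ} (hε : 0 < ε) : ContDiff ℝ 1 (PP D u ε) :=
  h.glue_contDiff hε (contDiff_Phi ε) (fun _ hs => Phi_eq_zero hε hs)
    (h.slopeX_smooth.div h.area_smooth fun z _ => (areaDensity_pos u z).ne')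

theorem Sol.QQ_contDiff (h : Sol D u) {ε : ℝ} (hε : 0 < ε) : ContDiff ℝ 1 (QQ D u ε) :=
  h.glue_contDiff hε (contDiff_Phi ε) (fun _ hs => Phi_eq_zero hε hs)
    (h.slopeY_smooth.div h.area_smooth fun z _ => (areaDensity_pos u z).ne')

theorem Sol.VV_contDiff (h : Sol D u) {ε : ℝ} (hε : 0 < ε) : ContDiff ℝ 1 (VV D u ε) :=
  h.glue_contDiff hε (contDiff_vee ε) (fun _ hs => vee_eq_zero hε hs) contDiffOn_const

theorem Sol.EE_continuous (h : Sol D u) {ε : ℝ} (hε : 0 < ε) : Continuous (EE D u ε) :=
  h.glue_continuous hε ((chi_continuous ε).pow 2) (chi_sq_zero hε)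
    (ContinuousOn.div ((h.slopeX_smooth.continuousOn.pow 2).add
      (h.slopeY_smooth.continuousOn.pow 2)) h.area_smooth.continuousOn
      fun z _ => (areaDensity_pos u z).ne')

theorem Sol.WW_continuous (h : Sol D u) {ε : ℝ} (hε : 0 < ε) : Continuous (WW D u ε) :=
  continuous_const.add (h.glue_continuous (half_pos hε) ((chi_continuous _).pow 2)
    (chi_sq_zero (half_pos hε)) (h.area_smooth.continuousOn.sub continuousOn_const))

theorem Sol.differentiableAt (h : Sol D u) {z : ℂ} (hz : z ∈ D) : DifferentiableAt ℝ u z :=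
  (h.smooth.contDiffAt (h.isOpen.mem_nhds hz)).differentiableAt (by norm_num)

theorem Sol.fderiv_VV_in (h : Sol D u) {ε : ℝ} {z : ℂ} (hz : z ∈ D) (v : ℂ) :
    fderiv ℝ (VV D u ε) z v = chi ε (u z) * fderiv ℝ u z v := by
  have e1 : VV D u ε =ᶠ[𝓝 z] fun w => vee ε (u w) :=
    (h.glue_in _ hz).trans (Eventually.of_forall fun w => by simp)
  have h1 := (hasDerivAt_vee ε (u z)).comp_hasFDerivAt z (h.differentiableAt hz).hasFDerivAt
  rw [e1.fderiv_eq]
  have : fderiv ℝ (fun w => vee ε (u w)) z = chi ε (u z) • fderiv ℝ u z := h1.fderiv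
  rw [this]; rfl

theorem Sol.fderiv_VV_out (h : Sol D u) {ε : ℝ} (hε : 0 < ε) {z : ℂ} (hz : z ∉ D) (v : ℂ) :
    fderiv ℝ (VV D u ε) z v = 0 := by
  have e1 := h.glue_zero hε (φ := vee ε) (fun _ hs => vee_eq_zero hε hs) (fun _ => 1) hz
  have e2 : VV D u ε =ᶠ[𝓝 z] fun _ => (0 : ℝ) := e1
  rw [e2.fderiv_eq]; simp

/-- The divergence of the truncated flux field is the truncated energy density. -/
theorem Sol.div_eq (h : Sol D u) {ε : ℝ} (hε : 0 < ε) (z : ℂ) :
    fderiv ℝ (PP D u ε) z 1 + fderiv ℝ (QQ D u ε) z Complex.I = EE D u ε z := by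
  by_cases hz : z ∈ D
  · have hn := h.isOpen.mem_nhds hz
    have hW := areaDensity_pos u z
    have hp : DifferentiableAt ℝ (fun w => slopeX u w / areaDensity u w) z :=
      ((h.slopeX_smooth.div h.area_smooth fun z _ => (areaDensity_pos u z).ne').contDiffAt
        hn).differentiableAt (by norm_num)
    have hq : DifferentiableAt ℝ (fun w => slopeY u w / areaDensity u w) z :=
      ((h.slopeY_smooth.div h.area_smooth fun z _ => (areaDensity_pos u z).ne').contDiffAt
        hn).differentiableAt (by norm_num)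
    have hΦ : HasFDerivAt (fun w => Phi ε (u w)) (chi ε (u z) ^ 2 • fderiv ℝ u z) z :=
      (hasDerivAt_Phi ε (u z)).comp_hasFDerivAt z (h.differentiableAt hz).hasFDerivAt
    have e1 : PP D u ε =ᶠ[𝓝 z] fun w => Phi ε (u w) * (slopeX u w / areaDensity u w) :=
      h.glue_in _ hz
    have e2 : QQ D u ε =ᶠ[𝓝 z] fun w => Phi ε (u w) * (slopeY u w / areaDensity u w) :=
      h.glue_in _ hz
    have m1 : fderiv ℝ (fun w => Phi ε (u w) * (slopeX u w / areaDensity u w)) z = _ :=
      (hΦ.mul hp.hasFDerivAt).fderiv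
    have m2 : fderiv ℝ (fun w => Phi ε (u w) * (slopeY u w / areaDensity u w)) z = _ :=
      (hΦ.mul hq.hasFDerivAt).fderiv
    rw [e1.fderiv_eq, e2.fderiv_eq, m1, m2]
    have hm := h.mse z hz
    unfold MinimalSurfaceEq at hm
    have e3 : EE D u ε z = chi ε (u z) ^ 2 *
      ((slopeX u z ^ 2 + slopeY u z ^ 2) / areaDensity u z) := indicator_of_mem hz _
    rw [e3]
    simp only [_root_.add_apply, _root_.smul_apply, smul_eq_mul]
    have hx : fderiv ℝ u z 1 = slopeX u z := rfl
    have hy : fderiv ℝ u z Complex.I = slopeY u z := rfl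
    rw [hx, hy]
    linear_combination Phi ε (u z) * hm
  · have e1 := h.glue_zero hε (φ := Phi ε) (fun _ hs => Phi_eq_zero hε hs)
      (fun w => slopeX u w / areaDensity u w) hz
    have e2 := h.glue_zero hε (φ := Phi ε) (fun _ hs => Phi_eq_zero hε hs)
      (fun w => slopeY u w / areaDensity u w) hz
    have e1' : PP D u ε =ᶠ[𝓝 z] fun _ => (0 : ℝ) := e1
    have e2' : QQ D u ε =ᶠ[𝓝 z] fun _ => (0 : ℝ) := e2
    have e3 : EE D u ε z = 0 := indicator_of_notMem hz _
    rw [e1'.fderiv_eq, e2'.fderiv_eq, e3]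
    simp

/-- The flux through the circle of radius `t`. -/
noncomputable def FF (D : Set ℂ) (u : ℂ → ℝ) (ε t : ℝ) : ℝ :=
  ∫ θ in (0 : ℝ)..(2 * π), t * (PP D u ε (circleMap 0 t θ) * cos θ
    + QQ D u ε (circleMap 0 t θ) * sin θ)

/-- Its derivative, the energy on the circle of radius `t`. -/
noncomputable def ff (D : Set ℂ) (u : ℂ → ℝ) (ε t : ℝ) : ℝ :=
  ∫ θ in (0 : ℝ)..(2 * π), t * EE D u ε (circleMap 0 t θ)

theorem Sol.hasDerivAt_FF (h : Sol D u) {ε : ℝ} (hε : 0 < ε) (t : ℝ) :
    HasDerivAt (FF D u ε) (ff D u ε t) t := by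
  have := flux (h.PP_contDiff hε) (h.QQ_contDiff hε) t
  simp only [h.div_eq hε] at this
  exact this

theorem EE_nonneg (D : Set ℂ) (u : ℂ → ℝ) (ε : ℝ) (z : ℂ) : 0 ≤ EE D u ε z := by
  unfold EE
  apply indicator_nonneg
  intro w _
  have := areaDensity_pos u w
  positivity

theorem ff_nonneg (D : Set ℂ) (u : ℂ → ℝ) (ε : ℝ) {t : ℝ} (ht : 0 ≤ t) : 0 ≤ ff D u ε t :=
  intervalIntegral.integral_nonneg (by positivity) fun θ _ =>
    mul_nonneg ht (EE_nonneg D u ε _)

theorem FF_zero (D : Set ℂ) (u : ℂ → ℝ) (ε : ℝ) : FF D u ε 0 = 0 := by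
  simp [FF]

theorem WW_pos (D : Set ℂ) (u : ℂ → ℝ) (ε : ℝ) (z : ℂ) : 0 < WW D u ε z := by
  unfold WW
  have : 0 ≤ D.indicator (fun w => chi (ε / 2) (u w) ^ 2 * (areaDensity u w - 1)) z := by
    apply indicator_nonneg
    intro w _
    have := one_le_areaDensity u w
    have h2 : 0 ≤ areaDensity u w - 1 := by linarith
    positivity
  linarith

/-- The weight is controlled by the energy density. -/
theorem WW_le (D : Set ℂ) (u : ℂ → ℝ) (ε : ℝ) (z : ℂ) : WW D u ε z ≤ 1 + EE D u (ε / 2) z := by
  unfold WW EE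
  by_cases hz : z ∈ D
  · rw [indicator_of_mem hz, indicator_of_mem hz]
    have h1 := one_le_areaDensity u z
    have h2 := areaDensity_sq u z
    have h3 : areaDensity u z - 1 ≤ (slopeX u z ^ 2 + slopeY u z ^ 2) / areaDensity u z := by
      rw [le_div_iff₀ (by linarith)]
      nlinarith
    gcongr
  · rw [indicator_of_notMem hz, indicator_of_notMem hz]

/-- Pointwise form of the Carleman inequality. -/
theorem Sol.pointwise (h : Sol D u) {ε : ℝ} (hε : 0 < ε) (z : ℂ) {c s t l : ℝ}
    (hcs : s ^ 2 + c ^ 2 = 1) (ht : 0 < t) (hl : 0 < l) :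
    t * (PP D u ε z * c + QQ D u ε z * s)
      ≤ l / 2 * (VV D u ε z ^ 2 * (t * WW D u ε z))
        + 1 / (2 * l) * (t * EE D u ε z
          - (t * (-s * fderiv ℝ (VV D u ε) z 1 + c * fderiv ℝ (VV D u ε) z Complex.I)) ^ 2
            / (t * WW D u ε z)) := by
  by_cases hz : z ∈ D
  · have hPP : PP D u ε z = Phi ε (u z) * (slopeX u z / areaDensity u z) :=
      indicator_of_mem hz _
    have hQQ : QQ D u ε z = Phi ε (u z) * (slopeY u z / areaDensity u z) :=
      indicator_of_mem hz _
    have hVV : VV D u ε z = vee ε (u z) := by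
      unfold VV; rw [indicator_of_mem hz]; ring
    have hEE : EE D u ε z = chi ε (u z) ^ 2 *
      ((slopeX u z ^ 2 + slopeY u z ^ 2) / areaDensity u z) := indicator_of_mem hz _
    rw [h.fderiv_VV_in hz, h.fderiv_VV_in hz, hPP, hQQ, hVV, hEE]
    have hx : fderiv ℝ u z 1 = slopeX u z := rfl
    have hy : fderiv ℝ u z Complex.I = slopeY u z := rfl
    rw [hx, hy]
    have hu0 : 0 ≤ u z := (h.pos z hz).le
    have hΦ := Phi_le_chi_mul_vee hε hu0
    have hΦ0 := Phi_nonneg (ε := ε) hu0
    have hv0 := vee_nonneg (ε := ε) hu0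
    have hχ0 := chi_nonneg ε (u z)
    have hw0 := WW_pos D u ε z
    by_cases hχ : chi ε (u z) = 0
    · rw [hχ] at hΦ ⊢
      have : Phi ε (u z) = 0 := le_antisymm (by linarith) hΦ0
      rw [this]
      have : 0 ≤ l / 2 * (vee ε (u z) ^ 2 * (t * WW D u ε z)) := by positivity
      simp only [zero_mul, add_zero, mul_zero]
      simpa using this
    · have hWW : WW D u ε z = areaDensity u z := by
        unfold WW
        rw [indicator_of_mem hz, chi_half hε hχ]; ring
      rw [hWW]
      set A := areaDensity u z with hA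
      set p := slopeX u z
      set q := slopeY u z
      set X := chi ε (u z)
      set v := vee ε (u z)
      set Φ := Phi ε (u z)
      have hA1 : 1 ≤ A := one_le_areaDensity u z
      have hA0 : 0 < A := by linarith
      -- reduce to the bound with `X * v`
      have step1 : t * (Φ * (p / A) * c + Φ * (q / A) * s) ≤ t * (X * v) * |p * c + q * s| / A := by
        have e : t * (Φ * (p / A) * c + Φ * (q / A) * s) = t * Φ * (p * c + q * s) / A := by
          field_simp
        rw [e]
        apply div_le_div_of_nonneg_right _ hA0.le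
        calc t * Φ * (p * c + q * s) ≤ t * Φ * |p * c + q * s| := by
              gcongr; exact le_abs_self _
          _ ≤ t * (X * v) * |p * c + q * s| := by gcongr
      refine step1.trans ?_
      set m := |p * c + q * s| with hm
      have hm2 : m ^ 2 = (p * c + q * s) ^ 2 := sq_abs _
      have hm0 : 0 ≤ m := abs_nonneg _
      have e1 : p ^ 2 + q ^ 2 = m ^ 2 + (-s * p + c * q) ^ 2 := by
        rw [hm2]
        linear_combination (-(p ^ 2) - q ^ 2) * hcs
      have e2 : t * (X ^ 2 * ((p ^ 2 + q ^ 2) / A)) -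
          (t * (-s * (X * p) + c * (X * q))) ^ 2 / (t * A) = t * X ^ 2 * m ^ 2 / A := by
        rw [e1]
        field_simp
        ring
      rw [e2]
      have e3 : l / 2 * (v ^ 2 * (t * A)) + 1 / (2 * l) * (t * X ^ 2 * m ^ 2 / A)
          - t * (X * v) * m / A
          = t / (2 * l * A) * ((l * v * A - X * m) ^ 2 + 2 * l * (X * v * m) * (A - 1)) := by
        field_simp
        ring
      have e4 : 0 ≤ t / (2 * l * A) * ((l * v * A - X * m) ^ 2 + 2 * l * (X * v * m) * (A - 1)) := by
        have : 0 ≤ A - 1 := by linarith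
        have h1 : 0 ≤ X * v * m := by positivity
        positivity
      linarith
  · have hPP : PP D u ε z = 0 := indicator_of_notMem hz _
    have hQQ : QQ D u ε z = 0 := indicator_of_notMem hz _
    have hVV : VV D u ε z = 0 := indicator_of_notMem hz _
    have hEE : EE D u ε z = 0 := indicator_of_notMem hz _
    rw [h.fderiv_VV_out hε hz, h.fderiv_VV_out hε hz, hPP, hQQ, hVV, hEE]
    simp

end Pool.Agent.Lib.MP_41eeae_an
end

section

/-!
Growth of the energy and of the maximum modulus.
-/

set_option autoImplicit false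

open MeasureTheory Set Filter Topology Real

namespace Pool.Agent.Lib.MP_41eeae_an

variable {D : Set ℂ} {u : ℂ → ℝ}

theorem circleMap_continuous (t : ℝ) : Continuous (fun θ => circleMap 0 t θ) :=
  continuous_circleMap 0 t

/-- Integrals over a period. -/
theorem integral_shift {g : ℝ → ℝ} (hg : Function.Periodic g (2 * π)) (θ₀ : ℝ) :
    ∫ θ in (0 : ℝ)..(2 * π), g θ = ∫ θ in θ₀..(θ₀ + 2 * π), g θ := by
  have := hg.intervalIntegral_add_eq 0 θ₀
  rwa [zero_add] at this

/-- The differential inequality `2π F ≤ (2π t + g) f` on circles meeting the complement of `D`. -/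
theorem Sol.key (h : Sol D u) {ε : ℝ} (hε : 0 < ε) {t : ℝ} (ht : 0 < t)
    (hmeet : ∃ z : ℂ, ‖z‖ = t ∧ z ∉ D) :
    2 * π * FF D u ε t ≤ (2 * π * t + ff D u (ε / 2) t) * ff D u ε t := by
  obtain ⟨z₀, hz₀, hz₀D⟩ := hmeet
  -- angle of `z₀`
  obtain ⟨θ₀, hθ₀⟩ : ∃ θ₀ : ℝ, circleMap 0 t θ₀ = z₀ := by
    refine ⟨Complex.arg z₀, ?_⟩
    rw [circleMap, zero_add, ← hz₀]
    exact Complex.norm_mul_exp_arg_mul_I z₀
  have hPP := (h.PP_contDiff hε)
  have hQQ := (h.QQ_contDiff hε)
  have hVV := (h.VV_contDiff hε)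
  have hEE := (h.EE_continuous hε)
  have hWW := (h.WW_continuous hε)
  have hcm := circleMap_continuous t
  have hVx : Continuous fun θ => fderiv ℝ (VV D u ε) (circleMap 0 t θ) 1 :=
    ((hVV.continuous_fderiv one_ne_zero).comp hcm).clm_apply continuous_const
  have hVy : Continuous fun θ => fderiv ℝ (VV D u ε) (circleMap 0 t θ) Complex.I :=
    ((hVV.continuous_fderiv one_ne_zero).comp hcm).clm_apply continuous_const
  have hPc : Continuous fun θ => PP D u ε (circleMap 0 t θ) := hPP.continuous.comp hcm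
  have hQc : Continuous fun θ => QQ D u ε (circleMap 0 t θ) := hQQ.continuous.comp hcm
  have hVc : Continuous fun θ => VV D u ε (circleMap 0 t θ) := hVV.continuous.comp hcm
  have hEc : Continuous fun θ => EE D u ε (circleMap 0 t θ) := hEE.comp hcm
  have hWc : Continuous fun θ => WW D u ε (circleMap 0 t θ) := hWW.comp hcm
  set ρ : ℝ → ℝ := fun θ => t * WW D u ε (circleMap 0 t θ) with hρ
  set V : ℝ → ℝ := fun θ => VV D u ε (circleMap 0 t θ) with hV
  set V' : ℝ → ℝ := fun θ => t * (-sin θ * fderiv ℝ (VV D u ε) (circleMap 0 t θ) 1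
        + cos θ * fderiv ℝ (VV D u ε) (circleMap 0 t θ) Complex.I) with hV'
  have hρc : Continuous ρ := continuous_const.mul hWc
  have hρ0 : ∀ θ, 0 < ρ θ := fun θ => mul_pos ht (WW_pos _ _ _ _)
  have hVd : ∀ θ, HasDerivAt V (V' θ) θ := fun θ => hasDerivAt_angle hVV t θ
  have hV'c : Continuous V' := by fun_prop
  have hV0 : V θ₀ = 0 := by
    simp only [hV, hθ₀]
    unfold VV
    exact indicator_of_notMem hz₀D _
  have hV1 : V (θ₀ + 2 * π) = 0 := by
    simp only [hV]
    rw [periodic_circleMap 0 t θ₀]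
    exact hV0
  have hpi : (0 : ℝ) < 2 * π := by positivity
  have hW := wirtinger (by linarith : θ₀ < θ₀ + 2 * π) hρc hρ0 hVd hV'c hV0 hV1
  have hpV : Function.Periodic (fun θ => V θ ^ 2 * ρ θ) (2 * π) := fun θ => by
    simp only [hV, hρ]; rw [periodic_circleMap 0 t θ]
  have hpρ : Function.Periodic ρ (2 * π) := fun θ => by
    simp only [hρ]; rw [periodic_circleMap 0 t θ]
  have hpV' : Function.Periodic (fun θ => V' θ ^ 2 / ρ θ) (2 * π) := fun θ => by
    simp only [hV', hρ]
    rw [periodic_circleMap 0 t θ, sin_add_two_pi, cos_add_two_pi]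
  rw [← integral_shift hpV, ← integral_shift hpρ, ← integral_shift hpV'] at hW
  set l : ℝ := ∫ θ in (0 : ℝ)..(2 * π), ρ θ with hl
  have hl0 : 0 < l :=
    intervalIntegral.intervalIntegral_pos_of_pos (hρc.intervalIntegrable _ _) hρ0 hpi
  set A : ℝ := ∫ θ in (0 : ℝ)..(2 * π), V θ ^ 2 * ρ θ with hA
  set B : ℝ := ∫ θ in (0 : ℝ)..(2 * π), V' θ ^ 2 / ρ θ with hB
  have hiA : IntervalIntegrable (fun θ => V θ ^ 2 * ρ θ) volume 0 (2 * π) :=
    ((hVc.pow 2).mul hρc).intervalIntegrable _ _
  have hiB : IntervalIntegrable (fun θ => V' θ ^ 2 / ρ θ) volume 0 (2 * π) :=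
    ((hV'c.pow 2).div hρc fun θ => (hρ0 θ).ne').intervalIntegrable _ _
  have hif : IntervalIntegrable (fun θ => t * EE D u ε (circleMap 0 t θ)) volume 0 (2 * π) :=
    (continuous_const.mul hEc).intervalIntegrable _ _
  have hiF : IntervalIntegrable (fun θ => t * (PP D u ε (circleMap 0 t θ) * cos θ
      + QQ D u ε (circleMap 0 t θ) * sin θ)) volume 0 (2 * π) := by
    apply Continuous.intervalIntegrable; fun_prop
  -- integrate the pointwise inequality with parameter `π / l`
  have hlam : 0 < π / l := by positivity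
  have h1 : FF D u ε t ≤ π / l / 2 * A + 1 / (2 * (π / l)) * (ff D u ε t - B) := by
    have : FF D u ε t ≤ ∫ θ in (0 : ℝ)..(2 * π), (π / l / 2 * (V θ ^ 2 * ρ θ)
        + 1 / (2 * (π / l)) * (t * EE D u ε (circleMap 0 t θ) - V' θ ^ 2 / ρ θ)) := by
      apply intervalIntegral.integral_mono_on hpi.le hiF
        ((hiA.const_mul _).add ((hif.sub hiB).const_mul _))
      intro θ _
      exact h.pointwise hε (circleMap 0 t θ) (sin_sq_add_cos_sq θ) ht hlam
    rw [intervalIntegral.integral_add (hiA.const_mul _) ((hif.sub hiB).const_mul _),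
      intervalIntegral.integral_const_mul, intervalIntegral.integral_const_mul,
      intervalIntegral.integral_sub hif hiB] at this
    exact this
  -- the weight
  have h2 : l ≤ 2 * π * t + ff D u (ε / 2) t := by
    have hE2 : Continuous fun θ => EE D u (ε / 2) (circleMap 0 t θ) :=
      (h.EE_continuous (half_pos hε)).comp hcm
    have : l ≤ ∫ θ in (0 : ℝ)..(2 * π), (t + t * EE D u (ε / 2) (circleMap 0 t θ)) := by
      apply intervalIntegral.integral_mono_on hpi.le (hρc.intervalIntegrable _ _)
      · apply Continuous.intervalIntegrable; fun_prop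
      · intro θ _
        have := WW_le D u ε (circleMap 0 t θ)
        simp only [hρ]
        nlinarith
    have hi3 : IntervalIntegrable (fun θ => t * EE D u (ε / 2) (circleMap 0 t θ)) volume
        0 (2 * π) := Continuous.intervalIntegrable (by fun_prop) _ _
    rw [intervalIntegral.integral_add _root_.intervalIntegrable_const hi3] at this
    simpa [ff] using this
  have hf0 := ff_nonneg D u ε ht.le
  have h3 : FF D u ε t ≤ l / (2 * π) * ff D u ε t := by
    have e : π / l / 2 * A + 1 / (2 * (π / l)) * (ff D u ε t - B)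
        = l / (2 * π) * ((π / l) ^ 2 * A) + l / (2 * π) * (ff D u ε t - B) := by
      field_simp
    rw [e] at h1
    have : l / (2 * π) * ((π / l) ^ 2 * A) ≤ l / (2 * π) * B := by gcongr
    calc FF D u ε t ≤ _ := h1
      _ ≤ l / (2 * π) * B + l / (2 * π) * (ff D u ε t - B) := by linarith
      _ = l / (2 * π) * ff D u ε t := by ring
  calc 2 * π * FF D u ε t ≤ 2 * π * (l / (2 * π) * ff D u ε t) := by gcongr
    _ = l * ff D u ε t := by field_simp
    _ ≤ _ := by gcongr

/-- The normalised flux is at most one in absolute value. -/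
theorem flux_le_one (u : ℂ → ℝ) (z : ℂ) (θ : ℝ) :
    slopeX u z / areaDensity u z * cos θ + slopeY u z / areaDensity u z * sin θ ≤ 1 := by
  have h1 := areaDensity_pos u z
  have h2 := areaDensity_sq u z
  have h3 := sin_sq_add_cos_sq θ
  have e : slopeX u z / areaDensity u z * cos θ + slopeY u z / areaDensity u z * sin θ
    = (slopeX u z * cos θ + slopeY u z * sin θ) / areaDensity u z := by ring
  rw [e, div_le_one h1]
  apply le_of_sq_le_sq _ h1.le
  rw [h2]
  nlinarith [sq_nonneg (slopeX u z * sin θ - slopeY u z * cos θ)]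

/-- Halving the truncation level changes the flux by at most a constant times `t`. -/
theorem Sol.FF_half_le (h : Sol D u) {ε : ℝ} (hε : 0 < ε) {t : ℝ} (ht : 0 ≤ t) :
    FF D u (ε / 2) t ≤ FF D u ε t + 4 * π * ε * t := by
  have hcm := circleMap_continuous t
  have hpi : (0 : ℝ) < 2 * π := by positivity
  have hP1 : Continuous fun θ => PP D u ε (circleMap 0 t θ) :=
    (h.PP_contDiff hε).continuous.comp hcm
  have hQ1 : Continuous fun θ => QQ D u ε (circleMap 0 t θ) :=
    (h.QQ_contDiff hε).continuous.comp hcm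
  have hP2 : Continuous fun θ => PP D u (ε / 2) (circleMap 0 t θ) :=
    (h.PP_contDiff (half_pos hε)).continuous.comp hcm
  have hQ2 : Continuous fun θ => QQ D u (ε / 2) (circleMap 0 t θ) :=
    (h.QQ_contDiff (half_pos hε)).continuous.comp hcm
  have h1 : FF D u (ε / 2) t ≤ ∫ θ in (0 : ℝ)..(2 * π), (t * (PP D u ε (circleMap 0 t θ) * cos θ
      + QQ D u ε (circleMap 0 t θ) * sin θ) + t * (2 * ε)) := by
    apply intervalIntegral.integral_mono_on hpi.le
    · apply Continuous.intervalIntegrable; fun_prop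
    · apply Continuous.intervalIntegrable; fun_prop
    · intro θ _
      rw [← mul_add]
      apply mul_le_mul_of_nonneg_left _ ht
      set z := circleMap 0 t θ
      by_cases hz : z ∈ D
      · have a1 : PP D u ε z = Phi ε (u z) * (slopeX u z / areaDensity u z) :=
          indicator_of_mem hz _
        have a2 : QQ D u ε z = Phi ε (u z) * (slopeY u z / areaDensity u z) :=
          indicator_of_mem hz _
        have a3 : PP D u (ε / 2) z = Phi (ε / 2) (u z) * (slopeX u z / areaDensity u z) :=
          indicator_of_mem hz _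
        have a4 : QQ D u (ε / 2) z = Phi (ε / 2) (u z) * (slopeY u z / areaDensity u z) :=
          indicator_of_mem hz _
        rw [a1, a2, a3, a4]
        have b1 := Phi_half_sub hε (h.pos z hz).le
        have b2 := flux_le_one u z θ
        have b3 : 0 ≤ Phi (ε / 2) (u z) - Phi ε (u z) := by
          rw [sub_nonneg]
          unfold Phi
          apply intervalIntegral.integral_mono_on (h.pos z hz).le
            (((chi_continuous _).pow 2).intervalIntegrable _ _)
            (((chi_continuous _).pow 2).intervalIntegrable _ _)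
          intro x _
          exact chi_sq_mono_eps hε x
        nlinarith
      · have a1 : PP D u ε z = 0 := indicator_of_notMem hz _
        have a2 : QQ D u ε z = 0 := indicator_of_notMem hz _
        have a3 : PP D u (ε / 2) z = 0 := indicator_of_notMem hz _
        have a4 : QQ D u (ε / 2) z = 0 := indicator_of_notMem hz _
        rw [a1, a2, a3, a4]
        simp; exact hε.le
  rw [intervalIntegral.integral_add] at h1
  · have e : ∫ θ in (0 : ℝ)..(2 * π), t * (2 * ε) = 4 * π * ε * t := by
      simp; ring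
    rw [e] at h1
    exact h1
  · apply Continuous.intervalIntegrable; fun_prop
  · apply Continuous.intervalIntegrable; fun_prop

/-- Caccioppoli inequality in differential form. -/
theorem Sol.caccioppoli (h : Sol D u) {ε : ℝ} (hε : 0 < ε) {t M : ℝ} (ht : 0 < t) (hM : 0 < M)
    (hu : ∀ z ∈ D, ‖z‖ = t → u z ≤ M) (hF : 0 < FF D u ε t) :
    FF D u ε t ^ 2 ≤ 2 * π * t * M ^ 2 * ff D u ε t := by
  have hcm := circleMap_continuous t
  have hpi : (0 : ℝ) < 2 * π := by positivity
  have hP1 : Continuous fun θ => PP D u ε (circleMap 0 t θ) :=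
    (h.PP_contDiff hε).continuous.comp hcm
  have hQ1 : Continuous fun θ => QQ D u ε (circleMap 0 t θ) :=
    (h.QQ_contDiff hε).continuous.comp hcm
  have hE1 : Continuous fun θ => EE D u ε (circleMap 0 t θ) :=
    (h.EE_continuous hε).comp hcm
  have key : ∀ l : ℝ, 0 < l → FF D u ε t ≤ π * l * M ^ 2 + t / (2 * l) * ff D u ε t := by
    intro l hl
    have h1 : FF D u ε t ≤ ∫ θ in (0 : ℝ)..(2 * π), (l / 2 * M ^ 2
        + t / (2 * l) * (t * EE D u ε (circleMap 0 t θ))) := by
      apply intervalIntegral.integral_mono_on hpi.le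
      · apply Continuous.intervalIntegrable; fun_prop
      · apply Continuous.intervalIntegrable; fun_prop
      · intro θ _
        have hnorm : ‖circleMap 0 t θ‖ = t := by
          rw [norm_circleMap_zero, abs_of_pos ht]
        set z := circleMap 0 t θ
        by_cases hz : z ∈ D
        · have a1 : PP D u ε z = Phi ε (u z) * (slopeX u z / areaDensity u z) :=
            indicator_of_mem hz _
          have a2 : QQ D u ε z = Phi ε (u z) * (slopeY u z / areaDensity u z) :=
            indicator_of_mem hz _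
          have a3 : EE D u ε z = chi ε (u z) ^ 2 *
            ((slopeX u z ^ 2 + slopeY u z ^ 2) / areaDensity u z) := indicator_of_mem hz _
          rw [a1, a2, a3]
          have hu0 : 0 ≤ u z := (h.pos z hz).le
          have hΦ := Phi_le_chi_mul_vee hε hu0
          have hΦ0 := Phi_nonneg (ε := ε) hu0
          have hv0 := vee_nonneg (ε := ε) hu0
          have hvM : vee ε (u z) ≤ M := (vee_le hu0).trans (hu z hz hnorm)
          have hχ0 := chi_nonneg ε (u z)
          set A := areaDensity u z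
          set p := slopeX u z
          set q := slopeY u z
          set X := chi ε (u z)
          set v := vee ε (u z)
          set Φ := Phi ε (u z)
          have hA1 : 1 ≤ A := one_le_areaDensity u z
          have hA0 : 0 < A := by linarith
          have step1 : t * (Φ * (p / A) * cos θ + Φ * (q / A) * sin θ)
              ≤ t * (X * M) * |p * cos θ + q * sin θ| / A := by
            have e : t * (Φ * (p / A) * cos θ + Φ * (q / A) * sin θ)
                = t * Φ * (p * cos θ + q * sin θ) / A := by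
              field_simp
            rw [e]
            apply div_le_div_of_nonneg_right _ hA0.le
            calc t * Φ * (p * cos θ + q * sin θ) ≤ t * Φ * |p * cos θ + q * sin θ| := by
                  gcongr; exact le_abs_self _
              _ ≤ t * (X * v) * |p * cos θ + q * sin θ| := by gcongr
              _ ≤ t * (X * M) * |p * cos θ + q * sin θ| := by gcongr
          refine step1.trans ?_
          set m := |p * cos θ + q * sin θ| with hm
          have hm2 : m ^ 2 = (p * cos θ + q * sin θ) ^ 2 := sq_abs _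
          have hm0 : 0 ≤ m := abs_nonneg _
          have hcs := sin_sq_add_cos_sq θ
          have e1 : p ^ 2 + q ^ 2 = m ^ 2 + (-sin θ * p + cos θ * q) ^ 2 := by
            rw [hm2]
            linear_combination (-(p ^ 2) - q ^ 2) * hcs
          set n := (-sin θ * p + cos θ * q) ^ 2 with hn
          have hn0 : 0 ≤ n := sq_nonneg _
          rw [e1]
          have e3 : l / 2 * M ^ 2 + t / (2 * l) * (t * (X ^ 2 * ((m ^ 2 + n) / A)))
              - t * (X * M) * m / A
              = 1 / (2 * l * A) * ((l * M - t * X * m) ^ 2 + l ^ 2 * M ^ 2 * (A - 1)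
                + t ^ 2 * X ^ 2 * n) := by
            field_simp
            ring
          have e4 : 0 ≤ 1 / (2 * l * A) * ((l * M - t * X * m) ^ 2 + l ^ 2 * M ^ 2 * (A - 1)
                + t ^ 2 * X ^ 2 * n) := by
            have : 0 ≤ A - 1 := by linarith
            positivity
          linarith
        · have a1 : PP D u ε z = 0 := indicator_of_notMem hz _
          have a2 : QQ D u ε z = 0 := indicator_of_notMem hz _
          have a3 : EE D u ε z = 0 := indicator_of_notMem hz _
          rw [a1, a2, a3]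
          simp only [zero_mul, add_zero, mul_zero]
          positivity
    rw [intervalIntegral.integral_add (continuous_const.intervalIntegrable _ _)
      (Continuous.intervalIntegrable (by fun_prop) _ _),
      intervalIntegral.integral_const_mul (t / (2 * l))] at h1
    have e : ∫ θ in (0 : ℝ)..(2 * π), l / 2 * M ^ 2 = π * l * M ^ 2 := by
      simp; ring
    rw [e] at h1
    exact h1
  set F := FF D u ε t
  have h2 := key (F / (2 * π * M ^ 2)) (by positivity)
  have e1 : π * (F / (2 * π * M ^ 2)) * M ^ 2 = F / 2 := by field_simp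
  have e2 : t / (2 * (F / (2 * π * M ^ 2))) * ff D u ε t = π * t * M ^ 2 * ff D u ε t / F := by
    field_simp
  rw [e1, e2] at h2
  have h3 : F / 2 ≤ π * t * M ^ 2 * ff D u ε t / F := by linarith
  rw [le_div_iff₀ hF] at h3
  nlinarith

end Pool.Agent.Lib.MP_41eeae_an
end

section

/-!
The square-root lower bound for the maximum modulus.
-/

set_option autoImplicit false

open MeasureTheory Set Filter Topology Real

namespace Pool.Agent.Lib.MP_41eeae_an

variable {D : Set ℂ} {u : ℂ → ℝ}

/-- The differential inequality forces linear growth of the energy. -/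
theorem linear_growth {F f G g : ℝ → ℝ} {s a : ℝ} (hs : 0 < s) (ha : 0 < a)
    (hF : ∀ t, s ≤ t → HasDerivAt F (f t) t) (hG : ∀ t, s ≤ t → HasDerivAt G (g t) t)
    (hineq : ∀ t, s ≤ t → 2 * π * F t ≤ (2 * π * t + g t) * f t)
    (hg : ∀ t, s ≤ t → 0 ≤ g t) (hf : ∀ t, s ≤ t → 0 ≤ f t)
    (hG0 : ∀ t, s ≤ t → 0 ≤ G t) (hGF : ∀ t, s ≤ t → G t ≤ F t + a * t)
    (hFs : 0 < F s) : ∃ c : ℝ, 0 < c ∧ ∀ t, s ≤ t → c * t ≤ F t := by
  have hcont : ContinuousOn F (Ici s) := fun t ht => (hF t ht).continuousAt.continuousWithinAt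
  have hmonoF : MonotoneOn F (Ici s) := by
    apply monotoneOn_of_deriv_nonneg (convex_Ici s) hcont
    · intro t ht
      rw [interior_Ici] at ht
      exact (hF t (le_of_lt ht)).differentiableAt.differentiableWithinAt
    · intro t ht
      rw [interior_Ici] at ht
      rw [(hF t (le_of_lt ht)).deriv]
      exact hf t (le_of_lt ht)
  have hFpos : ∀ t, s ≤ t → 0 < F t := fun t ht =>
    hFs.trans_le (hmonoF self_mem_Ici ht ht)
  -- `y = t / F * exp (-G / (2 π t²))`
  let y : ℝ → ℝ := fun t => t / F t * exp (-(G t / (2 * π * t ^ 2)))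
  let y' : ℝ → ℝ := fun t => y t * (1 / t - f t / F t - g t / (2 * π * t ^ 2) + G t / (π * t ^ 3))
  have hy0 : ∀ t, s ≤ t → 0 < y t := fun t ht => by
    have h1 := hFpos t ht
    have h2 : 0 < t := hs.trans_le ht
    simp only [y]; positivity
  have hyd : ∀ t, s ≤ t → HasDerivAt y (y' t) t := by
    intro t ht
    have h1 := hFpos t ht
    have h2 : 0 < t := hs.trans_le ht
    have d1 : HasDerivAt (fun t => t / F t) ((1 * F t - t * f t) / F t ^ 2) t :=
      (hasDerivAt_id t).div (hF t ht) h1.ne'
    have d2 : HasDerivAt (fun t => 2 * π * t ^ 2) (2 * π * (2 * t)) t := by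
      simpa using ((hasDerivAt_pow 2 t).const_mul (2 * π))
    have d3 : HasDerivAt (fun t => G t / (2 * π * t ^ 2))
        ((g t * (2 * π * t ^ 2) - G t * (2 * π * (2 * t))) / (2 * π * t ^ 2) ^ 2) t :=
      (hG t ht).div d2 (by positivity)
    have d3' : HasDerivAt (fun t => exp (-(G t / (2 * π * t ^ 2))))
        (exp (-(G t / (2 * π * t ^ 2))) *
          (-((g t * (2 * π * t ^ 2) - G t * (2 * π * (2 * t))) / (2 * π * t ^ 2) ^ 2))) t :=
      d3.neg.exp
    refine (d1.mul d3').congr_deriv ?_
    simp only [y', y]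
    field_simp
    ring
  have hy'le : ∀ t, s ≤ t → y' t ≤ (1 + a * y t) / (π * t ^ 2) := by
    intro t ht
    have h1 := hFpos t ht
    have h2 : 0 < t := hs.trans_le ht
    have h3 := hineq t ht
    have h4 := hg t ht
    have h5 := hGF t ht
    have h6 := hG0 t ht
    have h7 := hf t ht
    have hyp := hy0 t ht
    -- `1/t - f/F - g/(2π t²) ≤ 0`
    have e1 : 1 / t - f t / F t - g t / (2 * π * t ^ 2) ≤ 0 := by
      have : 1 / t - g t / (2 * π * t ^ 2) ≤ f t / F t := by
        rw [le_div_iff₀ h1]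
        have hA : 0 < 2 * π * t + g t := by positivity
        have hB : 2 * π * F t / (2 * π * t + g t) ≤ f t := by
          rw [div_le_iff₀ hA]; linarith
        refine le_trans ?_ hB
        rw [le_div_iff₀ hA]
        have : (1 / t - g t / (2 * π * t ^ 2)) * F t * (2 * π * t + g t)
            = 2 * π * F t - F t * g t ^ 2 / (2 * π * t ^ 2) := by
          field_simp
          ring
        rw [this]
        have : 0 ≤ F t * g t ^ 2 / (2 * π * t ^ 2) := by positivity
        linarith
      linarith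
    have e2 : y' t ≤ y t * (G t / (π * t ^ 3)) := by
      simp only [y']
      apply mul_le_mul_of_nonneg_left _ hyp.le
      linarith
    have e3 : y t * (G t / (π * t ^ 3)) ≤ y t * ((F t + a * t) / (π * t ^ 3)) := by gcongr
    have e4 : y t * ((F t + a * t) / (π * t ^ 3)) = (y t * F t / t + a * y t) / (π * t ^ 2) := by
      field_simp
    have e5 : y t * F t / t ≤ 1 := by
      have : y t * F t / t = exp (-(G t / (2 * π * t ^ 2))) := by
        simp only [y]; field_simp
      rw [this]
      apply exp_le_one_iff.2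
      have : 0 ≤ G t / (2 * π * t ^ 2) := by positivity
      linarith
    calc y' t ≤ _ := e2
      _ ≤ _ := e3
      _ = _ := e4
      _ ≤ _ := by gcongr
  -- `log (1 + a y) + a / (π t)` is nonincreasing
  let Y : ℝ → ℝ := fun t => log (1 + a * y t) + a / (π * t)
  let Y' : ℝ → ℝ := fun t => a * y' t / (1 + a * y t) + -(a / (π * t ^ 2))
  have hYd : ∀ t, s ≤ t → HasDerivAt Y (Y' t) t := by
    intro t ht
    have h2 : 0 < t := hs.trans_le ht
    have hyp := hy0 t ht
    have hy1 : 0 < 1 + a * y t := by positivity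
    have d1 : HasDerivAt (fun t => log (1 + a * y t)) (a * y' t / (1 + a * y t)) t :=
      (((hyd t ht).const_mul a).const_add 1).log hy1.ne'
    have d2 : HasDerivAt (fun t => a / (π * t)) (-(a / (π * t ^ 2))) t := by
      have := (hasDerivAt_const t a).div ((hasDerivAt_id t).const_mul π)
        (by simp only [id]; positivity)
      refine this.congr_deriv ?_
      simp only [id]
      field_simp
      ring
    exact d1.add d2
  have hY'le : ∀ t, s ≤ t → Y' t ≤ 0 := by
    intro t ht
    have h2 : 0 < t := hs.trans_le ht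
    have hyp := hy0 t ht
    have hy1 : 0 < 1 + a * y t := by positivity
    have h3 := hy'le t ht
    have : a * y' t / (1 + a * y t) ≤ a / (π * t ^ 2) := by
      rw [div_le_iff₀ hy1]
      calc a * y' t ≤ a * ((1 + a * y t) / (π * t ^ 2)) := by gcongr
        _ = a / (π * t ^ 2) * (1 + a * y t) := by ring
    simp only [Y']
    linarith
  have hYanti : AntitoneOn Y (Ici s) := by
    apply antitoneOn_of_deriv_nonpos (convex_Ici s)
    · exact fun t ht => (hYd t ht).continuousAt.continuousWithinAt
    · intro t ht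
      rw [interior_Ici] at ht
      exact (hYd t (le_of_lt ht)).differentiableAt.differentiableWithinAt
    · intro t ht
      rw [interior_Ici] at ht
      rw [(hYd t (le_of_lt ht)).deriv]
      exact hY'le t (le_of_lt ht)
  -- hence `y` is bounded
  set K : ℝ := exp (Y s) with hK
  have hybound : ∀ t, s ≤ t → a * y t ≤ K := by
    intro t ht
    have h2 : 0 < t := hs.trans_le ht
    have hyp := hy0 t ht
    have hy1 : 0 < 1 + a * y t := by positivity
    have h3 : Y t ≤ Y s := hYanti self_mem_Ici ht ht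
    have h4 : log (1 + a * y t) ≤ Y s := by
      have : 0 ≤ a / (π * t) := by positivity
      simp only [Y] at h3 ⊢
      linarith
    have h5 : 1 + a * y t ≤ K := by
      rw [hK, ← exp_log hy1]
      exact exp_le_exp.2 h4
    linarith
  -- conclude
  refine ⟨min 1 (a / (K * exp ((1 + a) / (2 * π * s)))), by positivity, fun t ht => ?_⟩
  have h2 : 0 < t := hs.trans_le ht
  have h1 := hFpos t ht
  by_cases hcase : t ≤ F t
  · calc min 1 (a / (K * exp ((1 + a) / (2 * π * s)))) * t ≤ 1 * t := by
          gcongr; exact min_le_left _ _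
      _ ≤ F t := by linarith
  · push Not at hcase
    have h5 := hGF t ht
    have e1 : G t / (2 * π * t ^ 2) ≤ (1 + a) / (2 * π * s) := by
      rw [div_le_div_iff₀ (by positivity) (by positivity)]
      have : G t ≤ (1 + a) * t := by nlinarith
      calc G t * (2 * π * s) ≤ ((1 + a) * t) * (2 * π * t) := by gcongr
        _ = (1 + a) * (2 * π * t ^ 2) := by ring
    have e2 : t / F t = y t * exp (G t / (2 * π * t ^ 2)) := by
      simp only [y]
      rw [mul_assoc, ← exp_add]
      simp
    have e3 : a * (t / F t) ≤ K * exp ((1 + a) / (2 * π * s)) := by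
      rw [e2]
      calc a * (y t * exp (G t / (2 * π * t ^ 2))) = (a * y t) * exp (G t / (2 * π * t ^ 2)) := by
            ring
        _ ≤ K * exp ((1 + a) / (2 * π * s)) := by
            gcongr
            exact hybound t ht
    have hKpos : 0 < K * exp ((1 + a) / (2 * π * s)) := by positivity
    calc min 1 (a / (K * exp ((1 + a) / (2 * π * s)))) * t
        ≤ a / (K * exp ((1 + a) / (2 * π * s))) * t := by gcongr; exact min_le_right _ _
      _ ≤ F t := by
          rw [div_mul_eq_mul_div, div_le_iff₀ hKpos]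
          have : a * (t / F t) * F t ≤ K * exp ((1 + a) / (2 * π * s)) * F t := by gcongr
          have e : a * (t / F t) * F t = a * t := by field_simp
          rw [e] at this
          linarith

/-- If the flux through the circle of radius `R` vanishes then the truncated solution is constant
on the disc. -/
theorem Sol.const_of_FF_eq_zero (h : Sol D u) {ε : ℝ} (hε : 0 < ε) {R : ℝ} (hR : 0 < R)
    (hF : FF D u ε R = 0) {z w : ℂ} (hz : ‖z‖ ≤ R) (hw : ‖w‖ ≤ R) :
    VV D u ε z = VV D u ε w := by
  have hd := h.hasDerivAt_FF hε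
  have hcont : Continuous (FF D u ε) := continuous_iff_continuousAt.2 fun t => (hd t).continuousAt
  have hmono : MonotoneOn (FF D u ε) (Ici 0) := by
    apply monotoneOn_of_deriv_nonneg (convex_Ici 0) hcont.continuousOn
    · intro t _
      exact (hd t).differentiableAt.differentiableWithinAt
    · intro t ht
      rw [interior_Ici] at ht
      rw [(hd t).deriv]
      exact ff_nonneg D u ε (le_of_lt ht)
  have hzero : ∀ t ∈ Icc 0 R, FF D u ε t = 0 := by
    intro t ht
    apply le_antisymm
    · rw [← hF]; exact hmono ht.1 hR.le ht.2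
    · rw [← FF_zero D u ε]; exact hmono self_mem_Ici ht.1 ht.1
  have hff : ∀ t ∈ Ioo 0 R, ff D u ε t = 0 := by
    intro t ht
    have e : FF D u ε =ᶠ[𝓝 t] fun _ => 0 := by
      filter_upwards [Ioo_mem_nhds ht.1 ht.2] with s hs
      exact hzero s ⟨hs.1.le, hs.2.le⟩
    rw [← (hd t).deriv, e.deriv_eq]
    simp
  have hEc := h.EE_continuous hε
  -- the energy density vanishes on the punctured open disc
  have hE1 : ∀ z : ℂ, 0 < ‖z‖ → ‖z‖ < R → EE D u ε z = 0 := by
    intro z hz0 hzR
    by_contra hne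
    have hpos : 0 < EE D u ε z := lt_of_le_of_ne (EE_nonneg D u ε z) (Ne.symm hne)
    set t := ‖z‖
    have hcirc : circleMap 0 t (Complex.arg z) = z := by
      rw [circleMap, zero_add]; exact Complex.norm_mul_exp_arg_mul_I z
    have hcm := circleMap_continuous t
    set g : ℝ → ℝ := fun θ => t * EE D u ε (circleMap 0 t θ) with hg
    have hgc : Continuous g := continuous_const.mul (hEc.comp hcm)
    have hg0 : ∀ θ, 0 ≤ g θ := fun θ => mul_nonneg hz0.le (EE_nonneg D u ε _)
    have hper : Function.Periodic g (2 * π) := fun θ => by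
      simp only [hg]; rw [periodic_circleMap 0 t θ]
    have hint : ∫ θ in (0 : ℝ)..(2 * π), g θ = 0 := hff t ⟨hz0, hzR⟩
    rw [integral_shift hper (Complex.arg z - π)] at hint
    have hlt : Complex.arg z - π < Complex.arg z - π + 2 * π := by linarith [pi_pos]
    have : 0 < ∫ θ in (Complex.arg z - π)..(Complex.arg z - π + 2 * π), g θ := by
      apply intervalIntegral.integral_pos hlt hgc.continuousOn (fun θ _ => hg0 θ)
      refine ⟨Complex.arg z, ⟨by linarith [pi_pos], by linarith [pi_pos]⟩, ?_⟩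
      simp only [hg]
      rw [hcirc]
      positivity
    linarith
  -- hence everywhere on the closed disc, by continuity
  have hE2 : ∀ z : ℂ, ‖z‖ ≤ R → EE D u ε z = 0 := by
    have hclosed : IsClosed {z : ℂ | EE D u ε z = 0} := isClosed_eq hEc continuous_const
    intro z hz
    have hmem : z ∈ closure {z : ℂ | 0 < ‖z‖ ∧ ‖z‖ < R} := by
      by_cases hz0 : z = 0
      · rw [hz0, Metric.mem_closure_iff]
        intro δ hδ
        refine ⟨((min δ R / 2 : ℝ) : ℂ), ?_, ?_⟩
        · have : 0 < min δ R := lt_min hδ hR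
          change 0 < ‖((min δ R / 2 : ℝ) : ℂ)‖ ∧ ‖((min δ R / 2 : ℝ) : ℂ)‖ < R
          rw [Complex.norm_real, norm_eq_abs, abs_of_pos (by positivity)]
          constructor
          · positivity
          · have := min_le_right δ R
            linarith
        · have : 0 < min δ R := lt_min hδ hR
          rw [dist_zero_left, Complex.norm_real, norm_eq_abs, abs_of_pos (by positivity)]
          have := min_le_left δ R
          linarith
      · have hzpos : 0 < ‖z‖ := norm_pos_iff.2 hz0
        have hlim : Tendsto (fun r : ℝ => (r : ℂ) * z) (𝓝[<] 1) (𝓝 ((1 : ℝ) * z)) := by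
          apply tendsto_nhdsWithin_of_tendsto_nhds
          have : Continuous fun r : ℝ => (r : ℂ) * z := by fun_prop
          exact this.tendsto 1
        rw [Complex.ofReal_one, one_mul] at hlim
        apply mem_closure_of_tendsto hlim
        have h1 : ∀ᶠ r : ℝ in 𝓝[<] 1, 0 < r := by
          apply eventually_nhdsWithin_of_eventually_nhds
          exact lt_mem_nhds one_pos
        filter_upwards [h1, self_mem_nhdsWithin] with r hr0 hr1
        have hr1' : r < 1 := hr1
        change 0 < ‖(r : ℂ) * z‖ ∧ ‖(r : ℂ) * z‖ < R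
        simp only [norm_mul, Complex.norm_real, norm_eq_abs, abs_of_pos hr0]
        constructor
        · positivity
        · nlinarith
    exact hclosed.closure_subset_iff.2 (fun z hz => hE1 z hz.1 hz.2) hmem
  have hV := h.VV_contDiff hε
  have hdiff : Differentiable ℝ (VV D u ε) := hV.differentiable one_ne_zero
  have hfd : ∀ z : ℂ, ‖z‖ ≤ R → fderiv ℝ (VV D u ε) z = 0 := by
    intro z hz
    have hE := hE2 z hz
    have hxy : fderiv ℝ (VV D u ε) z 1 = 0 ∧ fderiv ℝ (VV D u ε) z Complex.I = 0 := by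
      by_cases hzD : z ∈ D
      · have a3 : EE D u ε z = chi ε (u z) ^ 2 *
            ((slopeX u z ^ 2 + slopeY u z ^ 2) / areaDensity u z) := indicator_of_mem hzD _
        rw [a3] at hE
        have hA := areaDensity_pos u z
        rw [h.fderiv_VV_in hzD, h.fderiv_VV_in hzD]
        have hx : fderiv ℝ u z 1 = slopeX u z := rfl
        have hy : fderiv ℝ u z Complex.I = slopeY u z := rfl
        rw [hx, hy]
        rcases mul_eq_zero.1 hE with h1 | h1
        · have : chi ε (u z) = 0 := by simpa using h1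
          rw [this]; simp
        · have h2 : slopeX u z ^ 2 + slopeY u z ^ 2 = 0 := by
            rcases div_eq_zero_iff.1 h1 with h3 | h3
            · exact h3
            · exact absurd h3 hA.ne'
          have h3 : slopeX u z = 0 := by nlinarith [sq_nonneg (slopeX u z), sq_nonneg (slopeY u z)]
          have h4 : slopeY u z = 0 := by nlinarith [sq_nonneg (slopeX u z), sq_nonneg (slopeY u z)]
          rw [h3, h4]; simp
      · exact ⟨h.fderiv_VV_out hε hzD _, h.fderiv_VV_out hε hzD _⟩
    ext v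
    have hv : v = v.re • (1 : ℂ) + v.im • Complex.I := by
      apply Complex.ext <;> simp
    rw [hv, map_add, map_smul, map_smul, hxy.1, hxy.2]
    simp
  have := (convex_closedBall (0 : ℂ) R).norm_image_sub_le_of_norm_fderiv_le (𝕜 := ℝ)
    (f := VV D u ε) (C := 0) (x := w) (y := z) (fun x _ => hdiff x)
    (fun x hx => by rw [hfd x (by simpa using hx)]; simp) (by simpa using hw) (by simpa using hz)
  rw [zero_mul] at this
  exact sub_eq_zero.1 (norm_le_zero_iff.1 this)

/-- Maximum principle. -/
theorem Sol.max_principle (h : Sol D u) {R k : ℝ} (hR : 0 < R) (hk : 0 < k)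
    (hbd : ∀ z ∈ D, ‖z‖ = R → u z ≤ k) {z : ℂ} (hzD : z ∈ D) (hz : ‖z‖ ≤ R) : u z ≤ k := by
  have hzero : ∀ θ : ℝ, PP D u k (circleMap 0 R θ) = 0 ∧ QQ D u k (circleMap 0 R θ) = 0
      ∧ VV D u k (circleMap 0 R θ) = 0 := by
    intro θ
    have hnorm : ‖circleMap 0 R θ‖ = R := by rw [norm_circleMap_zero, abs_of_pos hR]
    set w := circleMap 0 R θ
    by_cases hw : w ∈ D
    · have h1 := hbd w hw hnorm
      unfold PP QQ VV
      rw [indicator_of_mem hw, indicator_of_mem hw, indicator_of_mem hw,
        Phi_eq_zero hk h1, vee_eq_zero hk h1]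
      simp
    · exact ⟨indicator_of_notMem hw _, indicator_of_notMem hw _, indicator_of_notMem hw _⟩
  have hF : FF D u k R = 0 := by
    unfold FF
    rw [intervalIntegral.integral_congr (g := fun _ => (0 : ℝ))]
    · simp
    · intro θ _
      simp [(hzero θ).1, (hzero θ).2.1]
  have hc := h.const_of_FF_eq_zero hk hR hF hz
    (w := circleMap 0 R 0) (by rw [norm_circleMap_zero, abs_of_pos hR])
  rw [(hzero 0).2.2] at hc
  by_contra hcon
  push Not at hcon
  have : VV D u k z = vee k (u z) := by
    unfold VV; rw [indicator_of_mem hzD]; ring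
  rw [this] at hc
  exact (vee_pos hk hcon).ne' hc

/-- **Square-root growth.** If every large circle meets the complement of `D`, a positive solution of
the minimal surface equation on `D` with zero boundary values grows at least like `√r`. -/
theorem Sol.sqrt_growth (h : Sol D u) (hne : D.Nonempty) {r₀ : ℝ}
    (hmeet : ∀ t, r₀ ≤ t → ∃ z : ℂ, ‖z‖ = t ∧ z ∉ D) :
    ∃ C : ℝ, 0 < C ∧ ∃ r₁ : ℝ, 0 < r₁ ∧ ∀ r, r₁ < r →
      ∃ z ∈ D, ‖z‖ = r ∧ (∀ w ∈ D, ‖w‖ = r → u w ≤ u z) ∧ C * √r ≤ u z := by
  obtain ⟨z₁, hz₁⟩ := hne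
  set ε : ℝ := u z₁ / 2 with hεdef
  have hε : 0 < ε := half_pos (h.pos z₁ hz₁)
  set s : ℝ := max (max r₀ ‖z₁‖) 1 with hsdef
  have hs1 : 1 ≤ s := le_max_right _ _
  have hs0 : 0 < s := by linarith
  have hsr : r₀ ≤ s := (le_max_left _ _).trans (le_max_left _ _)
  have hsz : ‖z₁‖ ≤ s := (le_max_right _ _).trans (le_max_left _ _)
  have hε2 : 0 < ε / 2 := half_pos hε
  have hFnn : ∀ δ, 0 < δ → ∀ t, 0 ≤ t → 0 ≤ FF D u δ t := by
    intro δ hδ t ht
    have hd := h.hasDerivAt_FF hδ
    have hcont : Continuous (FF D u δ) :=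
      continuous_iff_continuousAt.2 fun t => (hd t).continuousAt
    have hmono : MonotoneOn (FF D u δ) (Ici 0) := by
      apply monotoneOn_of_deriv_nonneg (convex_Ici 0) hcont.continuousOn
      · intro t _
        exact (hd t).differentiableAt.differentiableWithinAt
      · intro t ht
        rw [interior_Ici] at ht
        rw [(hd t).deriv]
        exact ff_nonneg D u δ (le_of_lt ht)
    rw [← FF_zero D u δ]
    exact hmono self_mem_Ici ht ht
  -- the flux at `s` is positive
  have hFs : 0 < FF D u ε s := by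
    refine lt_of_le_of_ne (hFnn ε hε s hs0.le) (Ne.symm ?_)
    intro hF0
    obtain ⟨w, hw, hwD⟩ := hmeet s hsr
    have hc := h.const_of_FF_eq_zero hε hs0 hF0 hsz (w := w) hw.le
    have h1 : VV D u ε w = 0 := indicator_of_notMem hwD _
    have h2 : VV D u ε z₁ = vee ε (u z₁) := by
      unfold VV; rw [indicator_of_mem hz₁]; ring
    rw [h1, h2] at hc
    exact (vee_pos hε (by rw [hεdef]; linarith [h.pos z₁ hz₁])).ne' hc
  -- linear growth of the flux
  obtain ⟨c, hc0, hc⟩ := linear_growth (F := FF D u ε) (f := ff D u ε) (G := FF D u (ε / 2))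
    (g := ff D u (ε / 2)) (s := s) (a := 4 * π * ε) hs0 (by positivity)
    (fun t _ => h.hasDerivAt_FF hε t) (fun t _ => h.hasDerivAt_FF hε2 t)
    (fun t ht => h.key hε (hs0.trans_le ht) (hmeet t (hsr.trans ht)))
    (fun t ht => ff_nonneg D u _ (hs0.le.trans ht)) (fun t ht => ff_nonneg D u _ (hs0.le.trans ht))
    (fun t ht => hFnn _ hε2 t (hs0.le.trans ht))
    (fun t ht => h.FF_half_le hε (hs0.le.trans ht)) hFs
  have hlog2 : 0 < log 2 := log_pos one_lt_two
  refine ⟨√(log 2 / (2 * π) * (c / 2)), by positivity, 2 * s, by positivity, fun r hr => ?_⟩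
  have hr0 : 0 < r := by linarith
  -- the maximum of `u` on the circle of radius `r`
  have hcomp : IsCompact (Metric.sphere (0 : ℂ) r) := isCompact_sphere 0 r
  have hsne : (Metric.sphere (0 : ℂ) r).Nonempty := ⟨(r : ℂ), by simp [abs_of_pos hr0]⟩
  obtain ⟨z, hzs, hzmax⟩ := hcomp.exists_isMaxOn hsne h.cont.continuousOn
  have hznorm : ‖z‖ = r := by simpa using hzs
  have hmax : ∀ w : ℂ, ‖w‖ = r → D.indicator u w ≤ D.indicator u z := by
    intro w hw
    exact hzmax (by simpa using hw)
  have hbd : ∀ k : ℝ, D.indicator u z ≤ k → ∀ w ∈ D, ‖w‖ = r → u w ≤ k := by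
    intro k hk w hw hwr
    have := hmax w hwr
    rw [indicator_of_mem hw] at this
    exact this.trans hk
  -- the maximum is positive, so it is attained in `D`
  have hzD : z ∈ D := by
    by_contra hzD
    have h0 : D.indicator u z = 0 := indicator_of_notMem hzD _
    have := h.max_principle (R := r) (k := ε) hr0 hε (hbd ε (by rw [h0]; exact hε.le)) hz₁
      (by linarith)
    rw [hεdef] at this
    linarith [h.pos z₁ hz₁]
  rw [indicator_of_mem hzD] at hbd
  have hMpos : 0 < u z := h.pos z hzD
  refine ⟨z, hzD, hznorm, hbd (u z) le_rfl, ?_⟩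
  set M := u z with hM
  have hball : ∀ w ∈ D, ‖w‖ ≤ r → u w ≤ M := fun w hw hwr =>
    h.max_principle hr0 hMpos (hbd M le_rfl) hw hwr
  -- Caccioppoli on `[r/2, r]`
  have hFpos : ∀ t, s ≤ t → 0 < FF D u ε t := fun t ht => by
    have := hc t ht
    have h2 : 0 < t := hs0.trans_le ht
    have : 0 < c * t := by positivity
    linarith
  have hrs : s ≤ r / 2 := by linarith
  let Z : ℝ → ℝ := fun t => -(1 / FF D u ε t) - log t / (2 * π * M ^ 2)
  have hZd : ∀ t, s ≤ t → HasDerivAt Z (ff D u ε t / FF D u ε t ^ 2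
      - 1 / t / (2 * π * M ^ 2)) t := by
    intro t ht
    have h1 := hFpos t ht
    have h2 : 0 < t := hs0.trans_le ht
    have d1 := ((hasDerivAt_const t (1 : ℝ)).div (h.hasDerivAt_FF hε t) h1.ne').neg
    have d2 : HasDerivAt (fun t => log t / (2 * π * M ^ 2)) (1 / t / (2 * π * M ^ 2)) t := by
      have := (hasDerivAt_log h2.ne').div_const (2 * π * M ^ 2)
      simpa [one_div] using this
    refine (d1.sub d2).congr_deriv ?_
    field_simp
    ring
  have hZmono : MonotoneOn Z (Icc (r / 2) r) := by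
    apply monotoneOn_of_deriv_nonneg (convex_Icc _ _)
    · exact fun t ht => (hZd t (hrs.trans ht.1)).continuousAt.continuousWithinAt
    · intro t ht
      rw [interior_Icc] at ht
      exact (hZd t (hrs.trans ht.1.le)).differentiableAt.differentiableWithinAt
    · intro t ht
      rw [interior_Icc] at ht
      have hst : s ≤ t := hrs.trans ht.1.le
      rw [(hZd t hst).deriv]
      have h1 := hFpos t hst
      have h2 : 0 < t := hs0.trans_le hst
      have h3 := h.caccioppoli hε h2 hMpos (fun w hw hwt => hball w hw (by rw [hwt]; exact ht.2.le))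
        h1
      rw [sub_nonneg, div_div, div_le_div_iff₀ (by positivity) (by positivity)]
      linarith
  have hZ := hZmono (left_mem_Icc.2 (by linarith)) (right_mem_Icc.2 (by linarith))
    (by linarith : r / 2 ≤ r)
  have hlog : log (r / 2) = log r - log 2 := log_div hr0.ne' two_ne_zero
  have hF2 := hFpos (r / 2) hrs
  have hF3 := hFpos r (by linarith)
  have h4 : log 2 / (2 * π * M ^ 2) ≤ 1 / FF D u ε (r / 2) := by
    simp only [Z] at hZ
    rw [hlog, sub_div] at hZ
    have : 0 < 1 / FF D u ε r := by positivity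
    linarith
  have h5 : c * (r / 2) ≤ FF D u ε (r / 2) := hc (r / 2) hrs
  have h6 : log 2 / (2 * π) * (c / 2) * r ≤ M ^ 2 := by
    rw [div_le_div_iff₀ (by positivity) hF2] at h4
    have : log 2 * (c * (r / 2)) ≤ 1 * (2 * π * M ^ 2) :=
      le_trans (by gcongr) h4
    have e : log 2 / (2 * π) * (c / 2) * r = log 2 * (c * (r / 2)) / (2 * π) := by
      field_simp
    rw [e, div_le_iff₀ (by positivity)]
    linarith
  rw [← sqrt_mul (by positivity), ← sqrt_sq hMpos.le]
  exact sqrt_le_sqrt h6

end Pool.Agent.Lib.MP_41eeae_an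
end
end
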